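import Pool.Agent.Helper59.GP.Weyl
import Pool.Agent.Helper18.GP.Rate

/-!
# Project GP: the first terms of the rates
-/

set_option autoImplicit false

namespace Pool.Agent.Helper59.GP

open Finset Filter Topology MeasureTheory
open Pool.Agent.Helper18.GP (lam kl rateD kl_ge lam_sup bddBelow_rate one_le_mgf)
open Pool.Agent.Helper87.GP (mg mg_pos mg_cont mg_lower)

theorem log_up {x : ℝ} (h0 : |x| ≤ 1 / 2) :
    Real.log (1 - x) ≤ -(x + x ^ 2 / 2 + x ^ 3 / 3 + x ^ 4 / 4 + x ^ 5 / 5) + 2 * x ^ 6 ∧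
    -(x + x ^ 2 / 2 + x ^ 3 / 3 + x ^ 4 / 4 + x ^ 5 / 5) - 2 * x ^ 6 ≤ Real.log (1 - x) := by
  have h1 := Real.abs_log_sub_add_sum_range_le (x := x) (by linarith) 5
  have h2 : |x| ^ (5 + 1) / (1 - |x|) ≤ 2 * x ^ 6 := by
    have h3 : |x| ^ (5 + 1) = x ^ 6 := by
      have : Even (5 + 1) := by decide
      rw [this.pow_abs]
    rw [h3, div_le_iff₀ (by linarith)]
    have h4 : 0 ≤ x ^ 6 := by positivity
    nlinarith
  have h3 := abs_le.1 (h1.trans h2)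
  simp only [Finset.sum_range_succ, Finset.sum_range_zero] at h3
  norm_num at h3
  constructor <;> [linarith [h3.1, h3.2]; linarith [h3.1, h3.2]]

/-- the saddle function, from above -/
theorem sad_le {θ : ℝ} (h0 : 0 < θ) (h1 : θ ≤ 1 / 2) :
    Real.log ((Real.exp θ - 1) / θ) + 1 / ((Real.exp θ - 1) / θ) - 1 ≤ θ ^ 2 / 8 - θ ^ 4 / 576 + 4 * θ ^ 6 := by
  obtain ⟨W, hW⟩ : ∃ W : ℝ, W = θ / 2 + θ ^ 2 / 6 + θ ^ 3 / 24 + θ ^ 4 / 120 := ⟨_, rfl⟩
  obtain ⟨w, hw⟩ : ∃ w : ℝ, w = (Real.exp θ - 1) / θ - 1 := ⟨_, rfl⟩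
  have hv : (Real.exp θ - 1) / θ = 1 + w := by rw [hw]; ring
  have hexp : Real.exp θ = 1 + θ * (1 + w) := by
    rw [← hv]
    field_simp
    ring
  have h2 := Real.exp_bound (x := θ) (by rw [abs_of_pos h0]; linarith) (n := 6) (by norm_num)
  have h3 := abs_le.1 h2
  simp only [Finset.sum_range_succ, Finset.sum_range_zero, Nat.factorial] at h3
  rw [abs_of_pos h0, hexp] at h3
  norm_num at h3
  have hWw : W ≤ w := by
    have h4 := Real.sum_le_exp_of_nonneg h0.le 6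
    simp only [Finset.sum_range_succ, Finset.sum_range_zero, Nat.factorial] at h4
    rw [hexp] at h4
    norm_num at h4
    have h5 : θ * W ≤ θ * w := by
      rw [hW]
      nlinarith
    exact le_of_mul_le_mul_left h5 h0
  have hwW : w ≤ W + θ ^ 5 / 100 := by
    have h5 : θ * w ≤ θ * (W + θ ^ 5 / 100) := by
      rw [hW]
      have h6 : 0 < θ ^ 6 := by positivity
      nlinarith [h3.1, h3.2]
    exact le_of_mul_le_mul_left h5 h0
  have hW0 : 0 < W := by rw [hW]; positivity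
  have e2 : θ ^ 2 ≤ θ / 2 := by nlinarith
  have e3 : θ ^ 3 ≤ θ / 4 := by nlinarith [sq_nonneg θ]
  have e4 : θ ^ 4 ≤ θ / 8 := by nlinarith [sq_nonneg θ, sq_nonneg (θ ^ 2), mul_pos h0 h0]
  have e5 : θ ^ 5 ≤ θ / 8 := by
    have : θ ^ 5 = θ * θ ^ 4 := by ring
    have h7 : θ * θ ^ 4 ≤ 1 / 2 * (θ / 8) := mul_le_mul h1 e4 (by positivity) (by norm_num)
    linarith
  have hWθ : W ≤ θ * (2 / 3) := by
    rw [hW]
    linarith
  have hwθ : w ≤ θ := by linarith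
  have hw0 : 0 < w := by linarith
  have hL : Real.log (1 + w) ≤ Real.log (1 + W) + (w - W) / (1 + W) := by
    have h5 := Real.log_le_sub_one_of_pos (show 0 < (1 + w) / (1 + W) by positivity)
    rw [Real.log_div (by positivity) (by positivity)] at h5
    have h6 : (1 + w) / (1 + W) - 1 = (w - W) / (1 + W) := by
      field_simp
      ring
    linarith
  have hdiff : Real.log (1 + w) + 1 / (1 + w) ≤ Real.log (1 + W) + 1 / (1 + W) + θ ^ 6 / 100 := by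
    have h5 : (w - W) / (1 + W) + 1 / (1 + w) - 1 / (1 + W) = (w - W) * w / ((1 + W) * (1 + w)) := by
      field_simp
      ring
    have h6 : (w - W) * w / ((1 + W) * (1 + w)) ≤ (w - W) * w := by
      apply div_le_self (mul_nonneg (by linarith) hw0.le)
      nlinarith
    have h7 : (w - W) * w ≤ θ ^ 5 / 100 * θ := mul_le_mul (by linarith) hwθ hw0.le (by positivity)
    have h8 : θ ^ 5 / 100 * θ = θ ^ 6 / 100 := by ring
    linarith
  have hlog := (log_up (x := -W) (by rw [abs_neg, abs_of_pos hW0]; linarith)).1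
  have hlog' : Real.log (1 + W) ≤ W - W ^ 2 / 2 + W ^ 3 / 3 - W ^ 4 / 4 + W ^ 5 / 5 + 2 * W ^ 6 := by
    have h5 : (1 : ℝ) - -W = 1 + W := by ring
    rw [h5] at hlog
    refine hlog.trans (le_of_eq (by ring))
  have hinv : 1 / (1 + W) ≤ 1 - W + W ^ 2 - W ^ 3 + W ^ 4 - W ^ 5 + W ^ 6 := by
    rw [div_le_iff₀ (by positivity)]
    have h5 : (1 - W + W ^ 2 - W ^ 3 + W ^ 4 - W ^ 5 + W ^ 6) * (1 + W) = 1 + W ^ 7 := by ring
    have h6 : 0 < W ^ 7 := by positivity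
    linarith
  have hpol : W ^ 2 / 2 - 2 * W ^ 3 / 3 + 3 * W ^ 4 / 4 - 4 * W ^ 5 / 5 ≤ θ ^ 2 / 8 - θ ^ 4 / 576 := by
    have h5 : θ ^ 2 / 8 - θ ^ 4 / 576 - (W ^ 2 / 2 - 2 * W ^ 3 / 3 + 3 * W ^ 4 / 4 - 4 * W ^ 5 / 5) =
        θ ^ 6 * (709 / 51840 + 41 / 2160 * θ + 617 / 38400 * θ ^ 2 + 1667 / 172800 * θ ^ 3 +
          27853 / 6220800 * θ ^ 4 + 5257 / 3110400 * θ ^ 5 + 263227 / 497664000 * θ ^ 6 +
          17317 / 124416000 * θ ^ 7 + 2567 / 82944000 * θ ^ 8 + 1439 / 248832000 * θ ^ 9 +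
          83 / 92160000 * θ ^ 10 + 71 / 622080000 * θ ^ 11 + 7 / 622080000 * θ ^ 12 +
          1 / 1244160000 * θ ^ 13 + 1 / 31104000000 * θ ^ 14) := by
      rw [hW]
      ring
    have h6 : 0 ≤ θ ^ 6 * (709 / 51840 + 41 / 2160 * θ + 617 / 38400 * θ ^ 2 + 1667 / 172800 * θ ^ 3 +
          27853 / 6220800 * θ ^ 4 + 5257 / 3110400 * θ ^ 5 + 263227 / 497664000 * θ ^ 6 +
          17317 / 124416000 * θ ^ 7 + 2567 / 82944000 * θ ^ 8 + 1439 / 248832000 * θ ^ 9 +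
          83 / 92160000 * θ ^ 10 + 71 / 622080000 * θ ^ 11 + 7 / 622080000 * θ ^ 12 +
          1 / 1244160000 * θ ^ 13 + 1 / 31104000000 * θ ^ 14) := by positivity
    linarith
  have hW6 : W ^ 6 ≤ θ ^ 6 := pow_le_pow_left₀ hW0.le (by linarith) 6
  have hθ6 : 0 < θ ^ 6 := by positivity
  rw [hv]
  linarith

/-- **The first two terms of the rate of the discrepancy.** -/
theorem rateD_exp {δ : ℝ} (h0 : 0 < δ) (h1 : δ ≤ 1 / 8) :
    |rateD δ - (2 * δ ^ 2 + 4 / 9 * δ ^ 4)| ≤ 16384 * δ ^ 6 := by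
  rw [abs_le]
  constructor
  · -- from below
    have hθ0 : 0 < 4 * δ := by linarith
    have h2 := sad_le hθ0 (by linarith)
    have h3 : 2 * δ ^ 2 + 4 / 9 * δ ^ 4 - 16384 * δ ^ 6 ≤ rateD δ := by
      unfold Pool.Agent.Helper18.GP.rateD
      apply le_csInf
      · exact ⟨_, ⟨1 / 2, ⟨by norm_num, by linarith⟩, rfl⟩⟩
      · rintro _ ⟨q, ⟨hq0, hq1⟩, rfl⟩
        have h4 := kl_ge (p := q + δ) (q := q) (by linarith) (by linarith) hq0 (by linarith) (4 * δ)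
        have hexp : 0 < Real.exp (4 * δ) - 1 := by
          have := Real.add_one_lt_exp hθ0.ne'
          linarith
        have h5 := lam_sup (q := q) (v := (Real.exp (4 * δ) - 1) / (4 * δ)) (θ := 4 * δ) (div_pos hexp hθ0)
          (by field_simp) (by positivity)
        simp only
        nlinarith
    linarith
  · have hy : |2 * δ / 3| ≤ 1 / 2 := by rw [abs_of_pos (by positivity)]; linarith
    have hx : |4 * δ / 3| ≤ 1 / 2 := by rw [abs_of_pos (by positivity)]; linarith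
    obtain ⟨y, hyd⟩ : ∃ y : ℝ, y = 2 * δ / 3 := ⟨_, rfl⟩
    have hδ : δ = 3 / 2 * y := by rw [hyd]; ring
    have hx' : |2 * y| ≤ 1 / 2 := by rw [hyd]; convert hx using 2; ring
    have hy' : |y| ≤ 1 / 2 := by rw [hyd]; exact hy
    have hy0 : 0 < y := by rw [hyd]; positivity
    have hx1 : 2 * y ≤ 1 / 2 := (le_abs_self _).trans hx'
    have l1 := (log_up (x := -(2 * y)) (by rw [abs_neg]; exact hx')).1
    have l2 := (log_up hy').2
    have l3 := (log_up hx').1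
    have l4 := (log_up (x := -y) (by rw [abs_neg]; exact hy')).2
    rw [sub_neg_eq_add] at l1 l4
    have h2 : rateD δ ≤ kl ((1 - y) / 2 + δ) ((1 - y) / 2) := by
      unfold Pool.Agent.Helper18.GP.rateD
      refine csInf_le ⟨0, ?_⟩ ⟨(1 - y) / 2, ⟨by linarith, by linarith⟩, rfl⟩
      rintro _ ⟨q, hq, rfl⟩
      exact bddBelow_rate h0 q hq
    have hp : (1 - y) / 2 + δ = (1 + 2 * y) / 2 := by rw [hδ]; ring
    have h3 : kl ((1 + 2 * y) / 2) ((1 - y) / 2) = 1 / 2 * ((1 + 2 * y) * (Real.log (1 + 2 * y) - Real.log (1 - y)) +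
        (1 - 2 * y) * (Real.log (1 - 2 * y) - Real.log (1 + y))) := by
      unfold Pool.Agent.Helper18.GP.kl
      have e1 : (1 + 2 * y) / 2 / ((1 - y) / 2) = (1 + 2 * y) / (1 - y) := by
        have : 1 - y ≠ 0 := by linarith
        field_simp
      have e2 : (1 - (1 + 2 * y) / 2) / (1 - (1 - y) / 2) = (1 - 2 * y) / (1 + y) := by
        have : 1 + y ≠ 0 := by linarith
        have h5 : 1 - (1 - y) / 2 = (1 + y) / 2 := by ring
        have h6 : 1 - (1 + 2 * y) / 2 = (1 - 2 * y) / 2 := by ring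
        rw [h5, h6]
        field_simp
      rw [e1, e2, Real.log_div (by linarith) (by linarith), Real.log_div (by linarith) (by linarith)]
      ring
    rw [hp, h3] at h2
    have m1 := mul_le_mul_of_nonneg_left (sub_le_sub l1 l2) (show 0 ≤ 1 + 2 * y by linarith)
    have m2 := mul_le_mul_of_nonneg_left (sub_le_sub l3 l4) (show 0 ≤ 1 - 2 * y by linarith)
    have h6 : 0 < y ^ 6 := by positivity
    rw [hδ] at h2 ⊢
    nlinarith

theorem mg_upper {φ : ℝ → ℝ} (hφ : Continuous φ) {M : ℝ} (hb : ∀ t, |φ t| ≤ M)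
    (hm : ∫ t in (0:ℝ)..1, φ t = 0) {θ : ℝ} (h0 : 0 ≤ θ) (h1 : θ * M ≤ 1) :
    mg φ θ ≤ 1 + θ ^ 2 * (∫ t in (0:ℝ)..1, φ t ^ 2) / 2 + (θ * M) ^ 3 := by
  have hM : 0 ≤ M := (abs_nonneg _).trans (hb 0)
  have h2 : ∀ t, Real.exp (θ * φ t) ≤ 1 + θ * φ t + θ ^ 2 / 2 * φ t ^ 2 + (θ * M) ^ 3 := by
    intro t
    have h3 : |θ * φ t| ≤ θ * M := by
      rw [abs_mul, abs_of_nonneg h0]
      exact mul_le_mul_of_nonneg_left (hb t) h0
    have h4 := Real.exp_bound (x := θ * φ t) (h3.trans h1) (n := 3) (by norm_num)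
    have h5 := (abs_le.1 h4).2
    simp only [Finset.sum_range_succ, Finset.sum_range_zero, Nat.factorial] at h5
    norm_num at h5
    have h6 : |θ * φ t| ^ 3 ≤ (θ * M) ^ 3 := pow_le_pow_left₀ (abs_nonneg _) h3 3
    have h7 : 0 ≤ |θ * φ t| ^ 3 := by positivity
    have h8 : |θ * φ t| ^ 3 = |θ| ^ 3 * |φ t| ^ 3 := by rw [abs_mul, mul_pow]
    nlinarith
  have h3 : mg φ θ ≤ ∫ t in (0:ℝ)..1, (1 + θ * φ t + θ ^ 2 / 2 * φ t ^ 2 + (θ * M) ^ 3) :=
    intervalIntegral.integral_mono_on (by norm_num) (Continuous.intervalIntegrable (by fun_prop) _ _)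
      (Continuous.intervalIntegrable (by fun_prop) _ _) fun t _ => h2 t
  refine h3.trans (le_of_eq ?_)
  rw [intervalIntegral.integral_add (Continuous.intervalIntegrable (by fun_prop) _ _) (by simp),
    intervalIntegral.integral_add (Continuous.intervalIntegrable (by fun_prop) _ _)
      (Continuous.intervalIntegrable (by fun_prop) _ _),
    intervalIntegral.integral_add (by simp) (Continuous.intervalIntegrable (by fun_prop) _ _),
    intervalIntegral.integral_const_mul, intervalIntegral.integral_const_mul, hm]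
  simp
  ring

/-- **The first term of the rate of the means.** -/
theorem rateL_exp {φ : ℝ → ℝ} (hφ : Continuous φ) {M : ℝ} (hb : ∀ t, |φ t| ≤ M)
    (hm : ∫ t in (0:ℝ)..1, φ t = 0) (hV0 : 0 < ∫ t in (0:ℝ)..1, φ t ^ 2) :
    ∃ C δ₀ : ℝ, 0 < C ∧ 0 < δ₀ ∧ ∀ δ, 0 < δ → δ ≤ δ₀ →
      |rateL φ δ - δ ^ 2 / (2 * ∫ t in (0:ℝ)..1, φ t ^ 2)| ≤ C * δ ^ 3 := by
  obtain ⟨V, hV⟩ : ∃ V : ℝ, V = ∫ t in (0:ℝ)..1, φ t ^ 2 := ⟨_, rfl⟩
  rw [← hV] at hV0 ⊢
  obtain ⟨L, hL⟩ : ∃ L : ℝ, L = max M 1 := ⟨_, rfl⟩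
  have hL1 : 1 ≤ L := by rw [hL]; exact le_max_right _ _
  have hL0 : 0 < L := by linarith
  have hbL : ∀ t, |φ t| ≤ L := fun t => (hb t).trans (by rw [hL]; exact le_max_left _ _)
  have hVL : V ≤ L ^ 2 := by
    have h1 : ∫ t in (0:ℝ)..1, φ t ^ 2 ≤ ∫ t in (0:ℝ)..1, L ^ 2 :=
      intervalIntegral.integral_mono_on (by norm_num) (Continuous.intervalIntegrable (by fun_prop) _ _)
        (by simp) fun t _ => by
          rw [← sq_abs]
          exact pow_le_pow_left₀ (abs_nonneg _) (hbL t) 2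
    rw [← hV] at h1
    simpa using h1
  refine ⟨(L / V) ^ 3 + (8 / V * L) ^ 3 + (8 / V) ^ 4 * V ^ 2, min 1 (V ^ 2 / (32 * L ^ 3)), by positivity, by positivity, ?_⟩
  intro δ h0 hδ
  have d1 : δ ≤ 1 := hδ.trans (min_le_left _ _)
  have d2 : δ * (32 * L ^ 3) ≤ V ^ 2 := by
    have := hδ.trans (min_le_right _ _)
    rwa [le_div_iff₀ (by positivity)] at this
  obtain ⟨⟨θ, hθ0, hθ1, heq⟩, hle⟩ := rate_attained hφ hbL hL1 hm hV0 hVL hV.le (A := 8 / V)
    (by rw [div_mul_cancel₀ _ hV0.ne']) (by positivity) h0 d2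
  -- the size of the exponents
  have hsz : 8 / V * δ * L ≤ 1 := by
    rw [div_mul_eq_mul_div, div_mul_eq_mul_div, div_le_one hV0]
    have h3 : δ * (32 * L ^ 3) ≤ V * L ^ 2 := by nlinarith
    have h4 : (32 * (δ * L) - V) * L ^ 2 ≤ 0 := by nlinarith
    have h5 : 0 < L ^ 2 := by positivity
    have h6 : 32 * (δ * L) - V ≤ 0 := by
      by_contra h7
      push Not at h7
      have := mul_pos h7 h5
      linarith
    nlinarith [mul_pos h0 hL0]
  have hδ4 : δ ^ 4 ≤ δ ^ 3 := pow_le_pow_of_le_one h0.le d1 (by norm_num)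
  have hδ3 : 0 < δ ^ 3 := by positivity
  rw [abs_le]
  constructor
  · -- the value at `δ / V`
    have h1 := hle (δ / V)
    have h2 : δ / V * L ≤ 1 := by
      have h3 : δ / V * L ≤ 8 / V * δ * L := by
        have h4 : 8 / V * δ * L = 8 * (δ / V * L) := by ring
        rw [h4]
        have : 0 < δ / V * L := by positivity
        linarith
      linarith
    have h3 := mg_upper hφ hbL hm (θ := δ / V) (by positivity) h2
    rw [← hV] at h3
    have h4 : lam φ (δ / V) ≤ mg φ (δ / V) - 1 := by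
      rw [lam_eq]
      exact Real.log_le_sub_one_of_pos (mg_pos hφ _)
    have h5 : δ / V * δ - (δ / V) ^ 2 * V / 2 = δ ^ 2 / (2 * V) := by
      field_simp
      ring
    have h6 : (δ / V * L) ^ 3 = (L / V) ^ 3 * δ ^ 3 := by ring
    rw [h6] at h3
    have h7 : 0 < (8 / V * L) ^ 3 * δ ^ 3 := by positivity
    have h8 : 0 < (8 / V) ^ 4 * V ^ 2 * δ ^ 3 := by positivity
    linarith
  · have h2 : θ * L ≤ 1 := (mul_le_mul_of_nonneg_right hθ1 hL0.le).trans hsz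
    have h3 := mg_lower hφ hbL hm hV.le hθ0 h2
    obtain ⟨u, hu⟩ : ∃ u : ℝ, u = θ ^ 2 * V / 2 - (θ * L) ^ 3 := ⟨_, rfl⟩
    have h4 : u - (θ ^ 2 * V / 2) ^ 2 ≤ lam φ θ := by
      have hw0 : 0 ≤ θ ^ 2 * V / 2 := by positivity
      have hθL : 0 ≤ (θ * L) ^ 3 := by positivity
      rcases le_or_gt u 0 with h5 | h5
      · have h6 := lam_nonneg hφ hm θ
        nlinarith [sq_nonneg (θ ^ 2 * V / 2)]
      · have h6 : Real.log (1 + u) ≤ lam φ θ := by
          rw [lam_eq]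
          apply Real.log_le_log (by linarith)
          rw [hu]
          linarith
        have h7 := Real.one_sub_inv_le_log_of_pos (show 0 < 1 + u by linarith)
        have h8 : 1 - (1 + u)⁻¹ = u / (1 + u) := by
          field_simp
          ring
        have h9 : u - u ^ 2 ≤ u / (1 + u) := by
          rw [le_div_iff₀ (by linarith)]
          have : 0 < u ^ 3 := by positivity
          nlinarith
        have h10 : u ^ 2 ≤ (θ ^ 2 * V / 2) ^ 2 := pow_le_pow_left₀ h5.le (by rw [hu]; linarith) 2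
        linarith
    have h5 : θ * δ - θ ^ 2 * V / 2 ≤ δ ^ 2 / (2 * V) := by
      have h6 : δ ^ 2 / (2 * V) - (θ * δ - θ ^ 2 * V / 2) = (δ - θ * V) ^ 2 / (2 * V) := by
        field_simp
        ring
      have h7 : 0 ≤ (δ - θ * V) ^ 2 / (2 * V) := by positivity
      linarith
    have h6 : (θ * L) ^ 3 ≤ (8 / V * L) ^ 3 * δ ^ 3 := by
      have h7 : (8 / V * L) ^ 3 * δ ^ 3 = (8 / V * δ * L) ^ 3 := by ring
      rw [h7]
      exact pow_le_pow_left₀ (by positivity) (mul_le_mul_of_nonneg_right hθ1 hL0.le) 3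
    have h7 : (θ ^ 2 * V / 2) ^ 2 ≤ (8 / V) ^ 4 * V ^ 2 * δ ^ 3 := by
      have h8 : (θ ^ 2 * V / 2) ^ 2 = θ ^ 4 * (V ^ 2 / 4) := by ring
      have h9 : θ ^ 4 ≤ (8 / V * δ) ^ 4 := pow_le_pow_left₀ hθ0 hθ1 4
      rw [h8]
      have h10 : θ ^ 4 * (V ^ 2 / 4) ≤ (8 / V * δ) ^ 4 * (V ^ 2 / 4) :=
        mul_le_mul_of_nonneg_right h9 (by positivity)
      have h11 : (8 / V * δ) ^ 4 * (V ^ 2 / 4) = ((8 / V) ^ 4 * V ^ 2) * δ ^ 4 / 4 := by ring
      have h12 : ((8 / V) ^ 4 * V ^ 2) * δ ^ 4 ≤ ((8 / V) ^ 4 * V ^ 2) * δ ^ 3 :=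
        mul_le_mul_of_nonneg_left hδ4 (by positivity)
      have h13 : 0 < ((8 / V) ^ 4 * V ^ 2) * δ ^ 4 := by positivity
      linarith
    have h8 : 0 < (L / V) ^ 3 * δ ^ 3 := by positivity
    rw [heq]
    rw [hu] at h4
    linarith

/-- the Weyl sums -/
theorem rate_cos : ∃ C δ₀ : ℝ, 0 < C ∧ 0 < δ₀ ∧ ∀ δ, 0 < δ → δ ≤ δ₀ →
    |rateL (fun t => Real.cos (2 * Real.pi * t)) δ - δ ^ 2| ≤ C * δ ^ 3 := by
  have h1 := cs_sq (m := 1) le_rfl
  obtain ⟨C, δ₀, hC, hδ₀, h⟩ := rateL_exp (cs_cont 1) (cs_abs_le 1) (cs_mean le_rfl) (by rw [h1]; norm_num)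
  refine ⟨C, δ₀, hC, hδ₀, fun δ h0 hδ => ?_⟩
  have h2 := h δ h0 hδ
  rw [h1, cs_rate le_rfl] at h2
  have h3 : δ ^ 2 / (2 * (1 / 2)) = δ ^ 2 := by ring
  rwa [h3] at h2

/-- the means of a Lipschitz function -/
theorem rate_lip {φ : ℝ → ℝ} {K : ℝ} (hper : ∀ t, φ (t + 1) = φ t)
    (hlip : ∀ s t, |φ s - φ t| ≤ K * |s - t|) (hmean : ∫ t in (0:ℝ)..1, φ t = 0) (hne : ∃ t, φ t ≠ 0) :
    ∃ C δ₀ : ℝ, 0 < C ∧ 0 < δ₀ ∧ ∀ δ, 0 < δ → δ ≤ δ₀ →
      |rateL φ δ - δ ^ 2 / (2 * ∫ t in (0:ℝ)..1, φ t ^ 2)| ≤ C * δ ^ 3 := by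
  have hc := lip_cont hlip
  refine rateL_exp hc (phi_bd hper hlip (lip_K hlip)) hmean ?_
  obtain ⟨t₀, ht₀⟩ := hne
  have h1 : Function.Periodic φ 1 := hper
  have h2 : φ (Int.fract t₀) = φ t₀ := by
    have h3 := h1.sub_zsmul_eq (x := t₀) ⌊t₀⌋
    rw [zsmul_eq_mul, mul_one] at h3
    exact h3
  have h3 : 0 < φ (Int.fract t₀) ^ 2 := by
    rw [h2]
    positivity
  exact intervalIntegral.integral_pos (by norm_num) (by fun_prop) (fun t _ => sq_nonneg _)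
    ⟨Int.fract t₀, ⟨Int.fract_nonneg _, (Int.fract_lt_one _).le⟩, h3⟩

end Pool.Agent.Helper59.GP
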