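import Pool.Agent.Helper59.GP.Tr
import Pool.Agent.Helper18.GP.Cls

/-!
# Project GP, block (d): the form with `TC`
-/

set_option autoImplicit false

namespace Pool.Agent.Helper59.GP

open Pool.Agent.Helper18.GP (TC)

theorem tr_approx : ∃ A : ℕ, ∀ η : ℝ, 0 < η → η ≤ 1 / 2 → ∀ h y : ℝ,
    ∃ (H : ℕ) (c : ℤ → ℂ) (p : ℝ → ℝ), TC A η H c p ∧
      ∀ t, |p t - Pool.Agent.Helper78.KD.tr η h y t| ≤ η := by
  refine ⟨3, fun η h0 h1 h y => ?_⟩
  obtain ⟨H, c, p, a1, a2, a3, a4, a5, _, a6⟩ := tr_approx0 η h0 h1 h y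
  refine ⟨H, c, p, ⟨a1, a2, ?_, a4, fun t => ?_⟩, a6⟩
  · push_cast
    exact a3
  · have := a5 t
    push_cast
    linarith

end Pool.Agent.Helper59.GP
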