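import Pool.Agent.Helper59.GP.Tr2

/-!
# Project GP: Lipschitz functions are close to trigonometric polynomials

The sum of the absolute values of the coefficients grows like the logarithm of the inverse of the error.
-/

set_option autoImplicit false

namespace Pool.Agent.Helper59.GP

open Finset Filter Topology MeasureTheory
open Pool.Agent.Helper82.FK (e)
open Pool.Agent.Helper18.GP (gp nm TC)

/-- Fourier coefficients -/
noncomputable def fc (f : ℝ → ℝ) (n : ℤ) : ℂ := ∫ t in (0:ℝ)..1, (f t : ℂ) * e (-(n * t))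

theorem e_cont : Continuous e := by
  unfold Pool.Agent.Helper82.FK.e
  fun_prop

theorem fc_conj (f : ℝ → ℝ) (n : ℤ) : (starRingEnd ℂ) (fc f n) = fc f (-n) := by
  unfold fc
  rw [intervalIntegral.integral_of_le zero_le_one, intervalIntegral.integral_of_le zero_le_one,
    ← integral_conj]
  refine integral_congr_ae (Filter.Eventually.of_forall fun t => ?_)
  simp only [map_mul, Complex.conj_ofReal, e_conj]
  congr 2
  push_cast
  ring

theorem fourier_hasSum {f : ℝ → ℝ} (hc : Continuous f) (hp : ∀ t, f (t + 1) = f t)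
    (hs : Summable (fc f)) (t : ℝ) : HasSum (fun n : ℤ => fc f n * e (n * t)) (f t : ℂ) := by
  have hper : Function.Periodic (fun t => (f t : ℂ)) 1 := fun t => by
    simp only [hp]
  have hgc : Continuous (fun t => (f t : ℂ)) := Complex.continuous_ofReal.comp hc
  let F : C(UnitAddCircle, ℂ) := ⟨hper.lift, continuous_coinduced_dom.mpr hgc⟩
  have hFc : ∀ x : ℝ, F (x : UnitAddCircle) = (f x : ℂ) := fun x => hper.lift_coe x
  have hF : fourierCoeff F = fc f := by
    funext n
    rw [fourierCoeff_eq_intervalIntegral F n 0]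
    unfold fc
    rw [zero_add, div_one, one_smul]
    apply intervalIntegral.integral_congr
    intro x _
    simp only [hFc, smul_eq_mul]
    rw [mul_comm, fourier_coe_apply]
    congr 1
    unfold Pool.Agent.Helper82.FK.e
    congr 1
    push_cast
    ring
  have h1 := has_pointwise_sum_fourier_series_of_summable (f := F) (by rw [hF]; exact hs) (t : UnitAddCircle)
  rw [hF, hFc] at h1
  have h2 : (fun n : ℤ => fc f n * e (n * t)) = (fun i : ℤ => fc f i • (fourier i (t : UnitAddCircle) : ℂ)) := by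
    funext n
    rw [smul_eq_mul, fourier_coe_apply]
    congr 1
    unfold Pool.Agent.Helper82.FK.e
    congr 1
    push_cast
    ring
  rw [h2]
  exact h1

/-- translation -/
theorem fc_shift {f : ℝ → ℝ} (hp : ∀ t, f (t + 1) = f t) (s : ℝ) (n : ℤ) :
    fc (fun t => f (t + s)) n = e (n * s) * fc f n := by
  have hper : Function.Periodic (fun t => (f t : ℂ) * e (-(n * t))) 1 := fun t => by
    simp only [hp]
    have h1 : -((n : ℝ) * (t + 1)) = -(n * t) + ((-n : ℤ) : ℝ) := by
      push_cast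
      ring
    rw [h1, e_add, e_int, mul_one]
  unfold fc
  have h1 : ∀ t : ℝ, (f (t + s) : ℂ) * e (-(n * t)) =
      e (n * s) * ((fun t => (f t : ℂ) * e (-(n * t))) (t + s)) := by
    intro t
    simp only
    have h2 : -((n : ℝ) * t) = n * s + -(n * (t + s)) := by ring
    rw [h2, e_add]
    ring
  have h3 := intervalIntegral.integral_comp_add_right (a := 0) (b := 1)
    (fun t => (f t : ℂ) * e (-(n * t))) s
  have h4 := hper.intervalIntegral_add_eq s 0
  rw [zero_add] at h3 h4
  rw [add_comm 1 s] at h3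
  calc ∫ t in (0:ℝ)..1, (f (t + s) : ℂ) * e (-(n * t)) =
      ∫ t in (0:ℝ)..1, e (n * s) * ((fun t => (f t : ℂ) * e (-(n * t))) (t + s)) :=
        intervalIntegral.integral_congr fun t _ => h1 t
    _ = e (n * s) * ∫ t in (0:ℝ)..1, ((fun t => (f t : ℂ) * e (-(n * t))) (t + s)) :=
        intervalIntegral.integral_const_mul _ _
    _ = _ := by rw [h3, h4]

theorem fc_lip {f : ℝ → ℝ} {K : ℝ} (hp : ∀ t, f (t + 1) = f t) (hc : Continuous f)
    (hlip : ∀ s t, |f s - f t| ≤ K * |s - t|) (n : ℤ) (hn : n ≠ 0) : ‖fc f n‖ ≤ K / (4 * |(n : ℝ)|) := by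
  have hn' : (n : ℝ) ≠ 0 := Int.cast_ne_zero.mpr hn
  have hna : 0 < |(n : ℝ)| := abs_pos.mpr hn'
  have h1 := fc_shift hp (1 / (2 * n)) n
  have h2 : (n : ℝ) * (1 / (2 * n)) = 1 / 2 := by
    field_simp
  have h3 : e (1 / 2) = -1 := by
    unfold Pool.Agent.Helper82.FK.e
    have : ((2 * Real.pi * (1 / 2) : ℝ) : ℂ) * Complex.I = Real.pi * Complex.I := by
      push_cast
      ring
    rw [this, Complex.exp_pi_mul_I]
  rw [h2, h3] at h1
  have h4 : 2 * fc f n = ∫ t in (0:ℝ)..1, ((f t - f (t + 1 / (2 * n)) : ℝ) : ℂ) * e (-(n * t)) := by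
    have h5 : fc f n - fc (fun t => f (t + 1 / (2 * n))) n =
        ∫ t in (0:ℝ)..1, ((f t - f (t + 1 / (2 * n)) : ℝ) : ℂ) * e (-(n * t)) := by
      unfold fc
      have ce := e_cont
      rw [← intervalIntegral.integral_sub (Continuous.intervalIntegrable (by fun_prop) _ _)
        (Continuous.intervalIntegrable (by fun_prop) _ _)]
      apply intervalIntegral.integral_congr
      intro t _
      simp only
      push_cast
      ring
    rw [← h5, h1]
    ring
  have h6 : ‖2 * fc f n‖ ≤ (K / (2 * |(n : ℝ)|)) * |(1:ℝ) - 0| := by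
    rw [h4]
    apply intervalIntegral.norm_integral_le_of_norm_le_const
    intro t _
    rw [norm_mul, e_norm, mul_one, Complex.norm_real, Real.norm_eq_abs]
    refine (hlip _ _).trans (le_of_eq ?_)
    have h7 : t - (t + 1 / (2 * n)) = -(1 / (2 * n)) := by ring
    rw [h7, abs_neg, abs_div, abs_mul, abs_one, abs_of_pos (show (0:ℝ) < 2 by norm_num)]
    ring
  rw [norm_mul] at h6
  have h8 : ‖(2:ℂ)‖ = 2 := by norm_num
  rw [h8, sub_zero, abs_one, mul_one] at h6
  have h9 : K / (4 * |(n : ℝ)|) = (K / (2 * |(n : ℝ)|)) / 2 := by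
    field_simp
    norm_num
  rw [h9]
  linarith

/-- integration by parts -/
theorem fc_deriv {F f : ℝ → ℝ} (hF : ∀ t, HasDerivAt F (f t) t) (hc : Continuous f)
    (hp : ∀ t, F (t + 1) = F t) (n : ℤ) : fc f n = (2 * Real.pi * n * Complex.I) * fc F n := by
  have cF : Continuous F := continuous_iff_continuousAt.mpr fun t => (hF t).continuousAt
  have ce := e_cont
  have hd : ∀ t ∈ Set.uIcc (0:ℝ) 1, HasDerivAt (fun t : ℝ => (F t : ℂ) * e (-(n * t)))
      ((f t : ℂ) * e (-(n * t)) + (F t : ℂ) * (e (-(n * t)) * (-(2 * Real.pi * n * Complex.I)))) t := by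
    intro t _
    have h1 : HasDerivAt (fun t : ℝ => e (-(n * t))) (e (-(n * t)) * (-(2 * Real.pi * n * Complex.I))) t := by
      unfold Pool.Agent.Helper82.FK.e
      have h2 : HasDerivAt (fun t : ℝ => ((2 * Real.pi * (-(n * t)) : ℝ) : ℂ) * Complex.I)
          (-(2 * Real.pi * n * Complex.I)) t := by
        have h3 : HasDerivAt (fun t : ℝ => 2 * Real.pi * (-(n * t))) (2 * Real.pi * (-(n * 1))) t :=
          (((hasDerivAt_id t).const_mul (n : ℝ)).neg).const_mul (2 * Real.pi)
        refine ((h3.ofReal_comp).mul_const Complex.I).congr_deriv ?_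
        push_cast
        ring
      exact h2.cexp
    exact ((hF t).ofReal_comp).mul h1
  have h4 := intervalIntegral.integral_eq_sub_of_hasDerivAt hd
    (Continuous.intervalIntegrable (by fun_prop) _ _)
  have h5 : (F 1 : ℂ) * e (-(n * 1)) - (F 0 : ℂ) * e (-(n * 0)) = 0 := by
    have h6 : F 1 = F 0 := by
      have := hp 0
      rwa [zero_add] at this
    have h7 : -((n : ℝ) * 1) = ((-n : ℤ) : ℝ) := by
      push_cast
      ring
    have h8 : -((n : ℝ) * 0) = ((0 : ℤ) : ℝ) := by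
      push_cast
      ring
    rw [h6, h7, h8, e_int, e_int, sub_self]
  rw [h5, intervalIntegral.integral_add (Continuous.intervalIntegrable (by fun_prop) _ _)
    (Continuous.intervalIntegrable (by fun_prop) _ _)] at h4
  have h9 : ∫ t in (0:ℝ)..1, (F t : ℂ) * (e (-(n * t)) * (-(2 * Real.pi * n * Complex.I))) =
      -(2 * Real.pi * n * Complex.I) * fc F n := by
    unfold fc
    rw [← intervalIntegral.integral_const_mul]
    apply intervalIntegral.integral_congr
    intro t _
    simp only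
    ring
  rw [h9] at h4
  unfold fc at h4 ⊢
  linear_combination h4

/-- **Lipschitz functions** -/
theorem lip_approx0 {φ : ℝ → ℝ} {K : ℝ} (hper : ∀ t, φ (t + 1) = φ t)
    (hlip : ∀ s t, |φ s - φ t| ≤ K * |s - t|) (hmean : ∫ t in (0:ℝ)..1, φ t = 0)
    (η : ℝ) (h0 : 0 < η) (M : ℕ) (hM : 1 ≤ M) :
    ∃ (c : ℤ → ℂ) (p : ℝ → ℝ), (∀ t, gp M c t = p t) ∧ nm M c ≤ K / 2 * (1 + Real.log M) ∧
      c 0 = 0 ∧ (∀ n, (starRingEnd ℂ) (c n) = c (-n)) ∧
      ∀ t, |p t - φ t| ≤ K * η + K / (2 * Real.pi * η) / M := by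
  have hpi := Real.pi_gt_three
  have hK : 0 ≤ K := by
    have h1 := hlip 0 1
    have h2 := abs_nonneg (φ 0 - φ 1)
    have h3 : |(0:ℝ) - 1| = 1 := by norm_num
    rw [h3, mul_one] at h1
    linarith
  have hφc : Continuous φ := by
    have : LipschitzWith (Real.toNNReal K) φ := LipschitzWith.of_dist_le_mul fun s t => by
      rw [Real.dist_eq, Real.dist_eq, Real.coe_toNNReal K hK]
      exact hlip s t
    exact this.continuous
  -- primitive
  set P : ℝ → ℝ := fun t => ∫ s in (0:ℝ)..t, φ s with hP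
  have hPd : ∀ t, HasDerivAt P (φ t) t := fun t =>
    intervalIntegral.integral_hasDerivAt_right (hφc.intervalIntegrable _ _)
      hφc.stronglyMeasurable.stronglyMeasurableAtFilter hφc.continuousAt
  have hPc : Continuous P := continuous_iff_continuousAt.mpr fun t => (hPd t).continuousAt
  have hPsub : ∀ a b, P b - P a = ∫ s in a..b, φ s := fun a b => by
    simp only [hP]
    exact intervalIntegral.integral_interval_sub_left (hφc.intervalIntegrable _ _)
      (hφc.intervalIntegrable _ _)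
  have hPper : ∀ t, P (t + 1) = P t := by
    intro t
    have h1 := hPsub t (t + 1)
    have h2 : Function.Periodic φ 1 := hper
    have h3 := h2.intervalIntegral_add_eq t 0
    rw [zero_add, hmean] at h3
    rw [h3] at h1
    linarith
  have hPn : ∀ n : ℤ, n ≠ 0 → ‖fc P n‖ ≤ K / (8 * Real.pi * (n : ℝ) ^ 2) := by
    intro n hn
    have hna : 0 < |(n : ℝ)| := abs_pos.mpr (Int.cast_ne_zero.mpr hn)
    have h1 := fc_lip hper hφc hlip n hn
    rw [fc_deriv hPd hφc hPper n, norm_mul] at h1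
    have h2 : ‖(2 * Real.pi * n * Complex.I : ℂ)‖ = 2 * Real.pi * |(n : ℝ)| := by
      rw [norm_mul, norm_mul, norm_mul, Complex.norm_I, Complex.norm_real, Complex.norm_intCast,
        Real.norm_eq_abs, abs_of_pos Real.pi_pos]
      norm_num
    rw [h2, le_div_iff₀ (by positivity)] at h1
    rw [le_div_iff₀ (by rw [← sq_abs]; positivity), ← sq_abs]
    nlinarith
  have hPs : Summable (fc P) := by
    have h1 : Summable (fun n : ℤ => K / (8 * Real.pi) * (1 / (n : ℝ) ^ 2)) :=
      (Real.summable_one_div_int_pow.mpr (by norm_num)).mul_left _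
    have h2 : Summable (fun n : ℤ => K / (8 * Real.pi) * (1 / (n : ℝ) ^ 2) + if n = 0 then ‖fc P 0‖ else 0) := by
      apply h1.add
      exact summable_of_ne_finset_zero (s := {0}) fun n hn => by
        rw [if_neg (by simpa using hn)]
    refine Summable.of_norm_bounded h2 fun n => ?_
    by_cases hn : n = 0
    · subst hn
      simp
    · rw [if_neg hn, add_zero]
      refine (hPn n hn).trans (le_of_eq ?_)
      have : (n : ℝ) ≠ 0 := Int.cast_ne_zero.mpr hn
      field_simp
  -- the coefficients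
  set c : ℤ → ℂ := fun n => (e (n * η) - 1) / η * fc P n with hc
  have hηc : (η : ℂ) ≠ 0 := Complex.ofReal_ne_zero.mpr h0.ne'
  have hc0 : c 0 = 0 := by
    simp only [hc]
    have h1 : ((0 : ℤ) : ℝ) * η = ((0 : ℤ) : ℝ) := by
      push_cast
      ring
    rw [h1, e_int, sub_self, zero_div, zero_mul]
  have hcconj : ∀ n, (starRingEnd ℂ) (c n) = c (-n) := by
    intro n
    simp only [hc, map_mul, map_div₀, map_sub, map_one, e_conj, Complex.conj_ofReal, fc_conj]
    congr 4
    push_cast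
    ring
  have hsum : ∀ t, HasSum (fun n : ℤ => c n * e (n * t)) (((P (t + η) - P t) / η : ℝ) : ℂ) := by
    intro t
    have h1 := fourier_hasSum hPc hPper hPs (t + η)
    have h2 := fourier_hasSum hPc hPper hPs t
    have h3 := (h1.sub h2).div_const (η : ℂ)
    have h4 : (fun n : ℤ => c n * e (n * t)) =
        (fun n : ℤ => (fc P n * e (n * (t + η)) - fc P n * e (n * t)) / (η : ℂ)) := by
      funext n
      simp only [hc]
      have h5 : (n : ℝ) * (t + η) = n * η + n * t := by ring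
      rw [h5, e_add]
      ring
    rw [h4]
    push_cast
    exact h3
  have hdiff : ∀ t, |(P (t + η) - P t) / η - φ t| ≤ K * η := by
    intro t
    have h1 : (P (t + η) - P t) / η - φ t = (∫ s in t..(t + η), (φ s - φ t)) / η := by
      rw [intervalIntegral.integral_sub (hφc.intervalIntegrable _ _) (by simp), hPsub,
        intervalIntegral.integral_const]
      simp only [add_sub_cancel_left, smul_eq_mul]
      field_simp
    have h2 : ‖∫ s in t..(t + η), (φ s - φ t)‖ ≤ (K * η) * |t + η - t| := by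
      apply intervalIntegral.norm_integral_le_of_norm_le_const
      intro s hs
      rw [Set.uIoc_of_le (by linarith)] at hs
      rw [Real.norm_eq_abs]
      refine (hlip s t).trans (mul_le_mul_of_nonneg_left ?_ hK)
      rw [abs_of_nonneg (by linarith [hs.1])]
      linarith [hs.2]
    rw [h1, abs_div, abs_of_pos h0, div_le_iff₀ h0]
    rw [Real.norm_eq_abs, add_sub_cancel_left, abs_of_pos h0] at h2
    exact h2
  have hcle1 : ∀ n : ℤ, n ≠ 0 → ‖c n‖ ≤ K / (4 * Real.pi * η) * (1 / (n : ℝ) ^ 2) := by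
    intro n hn
    have h1 := hPn n hn
    have h2 : ‖(e (n * η) - 1) / (η : ℂ)‖ ≤ 2 / η := by
      rw [norm_div, Complex.norm_real, Real.norm_eq_abs, abs_of_pos h0]
      apply div_le_div_of_nonneg_right _ h0.le
      refine (norm_sub_le _ _).trans ?_
      rw [e_norm, norm_one]
      norm_num
    simp only [hc]
    rw [norm_mul]
    calc _ ≤ 2 / η * (K / (8 * Real.pi * (n : ℝ) ^ 2)) :=
          mul_le_mul h2 h1 (norm_nonneg _) (by positivity)
      _ = _ := by
        have : (n : ℝ) ≠ 0 := Int.cast_ne_zero.mpr hn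
        field_simp
        ring
  have hcle2 : ∀ n : ℤ, n ≠ 0 → ‖c n‖ ≤ K / (4 * |(n : ℝ)|) := by
    intro n hn
    have hna : 0 < |(n : ℝ)| := abs_pos.mpr (Int.cast_ne_zero.mpr hn)
    have h1 := hPn n hn
    have h2 : ‖(e (n * η) - 1) / (η : ℂ)‖ ≤ 2 * Real.pi * |(n : ℝ)| := by
      rw [norm_div, Complex.norm_real, Real.norm_eq_abs, abs_of_pos h0, div_le_iff₀ h0]
      refine (e_sub_one _).trans (le_of_eq ?_)
      rw [abs_mul, abs_of_pos h0]
      ring
    simp only [hc]
    rw [norm_mul]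
    calc _ ≤ 2 * Real.pi * |(n : ℝ)| * (K / (8 * Real.pi * (n : ℝ) ^ 2)) :=
          mul_le_mul h2 h1 (norm_nonneg _) (by positivity)
      _ = _ := by
        rw [← sq_abs (n : ℝ)]
        field_simp
        ring
  -- the polynomial
  have hMpos : (0 : ℝ) < M := by exact_mod_cast hM
  have hreal : ∀ t, (starRingEnd ℂ) (gp M c t) = gp M c t := by
    intro t
    unfold gp
    rw [map_sum]
    refine Finset.sum_equiv (Equiv.neg ℤ) ?_ ?_
    · intro i
      simp only [Finset.mem_Icc, Equiv.neg_apply]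
      omega
    · intro i _
      rw [map_mul, hcconj, e_conj]
      simp only [Equiv.neg_apply]
      congr 2
      push_cast
      ring
  have heq : ∀ t, gp M c t = (((gp M c t).re : ℝ) : ℂ) := fun t =>
    (Complex.conj_eq_iff_re.mp (hreal t)).symm
  refine ⟨c, fun t => (gp M c t).re, heq, ?_, hc0, hcconj, fun t => ?_⟩
  · have hz : ‖c 0‖ = 0 := by rw [hc0, norm_zero]
    unfold nm
    rw [sum_sym (fun n : ℤ => ‖c n‖) hz, Finset.sum_range_succ']
    simp only [if_true, add_zero]
    have h2 : ∀ n ∈ Finset.range M, (if n + 1 = 0 then 0 else (‖c ((n + 1 : ℕ) : ℤ)‖ +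
        ‖c (-((n + 1 : ℕ) : ℤ))‖)) ≤ K / 2 * ((n + 1 : ℕ) : ℝ)⁻¹ := by
      intro n _
      rw [if_neg (by omega)]
      have hp : (0 : ℝ) < ((n + 1 : ℕ) : ℝ) := by positivity
      have k1 := hcle2 ((n + 1 : ℕ) : ℤ) (by omega)
      have k2 := hcle2 (-((n + 1 : ℕ) : ℤ)) (by omega)
      rw [Int.cast_neg, abs_neg] at k2
      rw [Int.cast_natCast, abs_of_pos hp] at k1 k2
      calc _ ≤ K / (4 * ((n + 1 : ℕ) : ℝ)) + K / (4 * ((n + 1 : ℕ) : ℝ)) := add_le_add k1 k2
        _ = K / 2 * ((n + 1 : ℕ) : ℝ)⁻¹ := by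
          field_simp
          ring
    refine (Finset.sum_le_sum h2).trans ?_
    rw [← Finset.mul_sum]
    apply mul_le_mul_of_nonneg_left _ (by positivity)
    have h3 := harmonic_le_one_add_log M
    have h4 : ((harmonic M : ℚ) : ℝ) = ∑ n ∈ Finset.range M, ((n + 1 : ℕ) : ℝ)⁻¹ := by
      unfold harmonic
      push_cast
      rfl
    rw [h4] at h3
    exact h3
  · have hs := (hsum t).nat_add_neg
    have hz : c 0 * e (((0 : ℤ) : ℝ) * t) = 0 := by rw [hc0, zero_mul]
    rw [hz, add_zero] at hs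
    have hg0 : gp M c t = ∑ n ∈ Finset.range (M + 1), (c (n : ℤ) * e (((n : ℤ) : ℝ) * t) +
        c (-(n : ℤ)) * e (((-(n : ℤ) : ℤ) : ℝ) * t)) := by
      unfold gp
      rw [sum_sym (fun n : ℤ => c n * e ((n : ℝ) * t)) hz]
      refine Finset.sum_congr rfl fun n _ => ?_
      by_cases hn : n = 0
      · rw [if_pos hn]
        subst hn
        simp [hc0]
      · rw [if_neg hn]
    have hb : ∀ n : ℕ, 1 ≤ n → ‖c (n : ℤ) * e (((n : ℤ) : ℝ) * t) +
        c (-(n : ℤ)) * e (((-(n : ℤ) : ℤ) : ℝ) * t)‖ ≤ K / (2 * Real.pi * η) / (n : ℝ) ^ 2 := by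
      intro n hn
      refine (norm_add_le _ _).trans ?_
      rw [norm_mul (c (n : ℤ)), norm_mul (c (-(n : ℤ))), e_norm, e_norm, mul_one, mul_one]
      have k1 := hcle1 (n : ℤ) (by omega)
      have k2 := hcle1 (-(n : ℤ)) (by omega)
      push_cast at k1 k2
      rw [neg_sq] at k2
      calc _ ≤ K / (4 * Real.pi * η) * (1 / (n : ℝ) ^ 2) + K / (4 * Real.pi * η) * (1 / (n : ℝ) ^ 2) :=
            add_le_add k1 k2
        _ = _ := by
          field_simp
          ring
    have ht := tail_le (by positivity) _ _ hs hb M hM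
    rw [← hg0] at ht
    have h5 : |(gp M c t).re - (P (t + η) - P t) / η| = ‖(((P (t + η) - P t) / η : ℝ) : ℂ) - gp M c t‖ := by
      rw [heq t, ← Complex.ofReal_sub, Complex.norm_real, Real.norm_eq_abs, Complex.ofReal_re, abs_sub_comm]
    have h6 : (gp M c t).re - φ t = ((P (t + η) - P t) / η - φ t) + ((gp M c t).re - (P (t + η) - P t) / η) := by
      ring
    simp only
    rw [h6]
    refine (abs_add_le _ _).trans (add_le_add (hdiff t) ?_)
    rw [h5]
    exact ht

theorem lip_approx {φ : ℝ → ℝ} {K : ℝ} (hper : ∀ t, φ (t + 1) = φ t)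
    (hlip : ∀ s t, |φ s - φ t| ≤ K * |s - t|) (hmean : ∫ t in (0:ℝ)..1, φ t = 0) :
    ∃ A : ℕ, 1 ≤ A ∧ ∀ η : ℝ, 0 < η → η ≤ 1 / 2 →
      ∃ (H : ℕ) (c : ℤ → ℂ) (p : ℝ → ℝ), TC A η H c p ∧ ∀ t, |p t - φ t| ≤ η := by
  have hpi := Real.pi_gt_three
  have hK : 0 ≤ K := by
    have h1 := hlip 0 1
    have h2 := abs_nonneg (φ 0 - φ 1)
    have h3 : |(0:ℝ) - 1| = 1 := by norm_num
    rw [h3, mul_one] at h1
    linarith
  obtain ⟨a₁, ha₁⟩ : ∃ a : ℕ, (K + 1) ^ 2 + 1 ≤ 2 ^ a := by
    obtain ⟨a, ha⟩ := pow_unbounded_of_one_lt ((K + 1) ^ 2 + 1) (show (1:ℝ) < 2 by norm_num)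
    exact ⟨a, ha.le⟩
  obtain ⟨a₂, ha₂⟩ : ∃ a : ℕ, K / 2 * (1 + (K + 1) ^ 2) + K ≤ a := exists_nat_ge _
  obtain ⟨a₃, ha₃⟩ : ∃ a : ℕ, |φ 0| + K + 1 ≤ a := exists_nat_ge _
  have hφb : ∀ t, |φ t| ≤ |φ 0| + K := by
    intro t
    have h1 : Function.Periodic φ 1 := hper
    have h2 : φ (Int.fract t) = φ t := by
      have h3 := h1.sub_zsmul_eq (x := t) ⌊t⌋
      rw [zsmul_eq_mul, mul_one] at h3
      exact h3
    rw [← h2]
    have h4 := hlip (Int.fract t) 0
    have h5 := abs_sub_abs_le_abs_sub (φ (Int.fract t)) (φ 0)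
    have h6 : |Int.fract t - 0| ≤ 1 := by
      rw [sub_zero, abs_of_nonneg (Int.fract_nonneg t)]
      exact (Int.fract_lt_one t).le
    have h7 := mul_le_mul_of_nonneg_left h6 hK
    linarith
  refine ⟨a₁ + 2 + a₂ + a₃, by omega, fun η h0 h1 => ?_⟩
  have hinv : 2 ≤ 1 / η := by
    rw [le_div_iff₀ h0]
    linarith
  have hinv1 : 1 ≤ 1 / η := by linarith
  obtain ⟨M, hMdef⟩ : ∃ M : ℕ, M = ⌈((K + 1) * (1 / η)) ^ 2⌉₊ := ⟨_, rfl⟩
  have hMge : ((K + 1) * (1 / η)) ^ 2 ≤ M := by
    rw [hMdef]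
    exact Nat.le_ceil _
  have hMpos : (0 : ℝ) < M := lt_of_lt_of_le (by positivity) hMge
  have hM1 : 1 ≤ M := by
    have : 0 < M := by exact_mod_cast hMpos
    omega
  have hMle : (M : ℝ) ≤ ((K + 1) ^ 2 + 1) * (1 / η) ^ 2 := by
    have h2 : (M : ℝ) < ((K + 1) * (1 / η)) ^ 2 + 1 := by
      rw [hMdef]
      exact Nat.ceil_lt_add_one (by positivity)
    have h3 : 1 ≤ (1 / η) ^ 2 := one_le_pow₀ hinv1
    rw [mul_pow] at h2
    linarith
  obtain ⟨c, p, b1, b2, b3, _, b4⟩ := lip_approx0 hper hlip hmean (η / (2 * (K + 1))) (by positivity) M hM1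
  have hlog0 : 0 ≤ Real.log (1 / η) := Real.log_nonneg hinv1
  have hclose : ∀ t, |p t - φ t| ≤ η := by
    intro t
    refine (b4 t).trans ?_
    have e1 : K * (η / (2 * (K + 1))) ≤ η / 2 := by
      rw [mul_div_assoc', div_le_div_iff₀ (by positivity) (by positivity)]
      nlinarith
    have e2 : K / (2 * Real.pi * (η / (2 * (K + 1)))) / M ≤ η / 2 := by
      rw [div_le_iff₀ hMpos]
      have e3 : K / (2 * Real.pi * (η / (2 * (K + 1)))) = K * (K + 1) / Real.pi * (1 / η) := by
        field_simp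
      rw [e3]
      have e4 : η / 2 * ((K + 1) * (1 / η)) ^ 2 ≤ η / 2 * M := mul_le_mul_of_nonneg_left hMge (by positivity)
      have e5 : η / 2 * ((K + 1) * (1 / η)) ^ 2 = (K + 1) ^ 2 / 2 * (1 / η) := by
        field_simp
      rw [e5] at e4
      refine le_trans ?_ e4
      apply mul_le_mul_of_nonneg_right _ (by positivity)
      rw [div_le_div_iff₀ (by positivity) (by positivity)]
      nlinarith [mul_nonneg hK (show 0 ≤ K + 1 by linarith)]
    linarith
  refine ⟨M, c, p, ⟨b1, ?_, ?_, b3, fun t => ?_⟩, hclose⟩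
  · calc (M : ℝ) ≤ ((K + 1) ^ 2 + 1) * (1 / η) ^ 2 := hMle
      _ ≤ 2 ^ a₁ * (1 / η) ^ 2 := mul_le_mul_of_nonneg_right ha₁ (by positivity)
      _ ≤ (1 / η) ^ a₁ * (1 / η) ^ 2 :=
        mul_le_mul_of_nonneg_right (pow_le_pow_left₀ (by norm_num) hinv _) (by positivity)
      _ = (1 / η) ^ (a₁ + 2) := (pow_add _ _ _).symm
      _ ≤ (1 / η) ^ (a₁ + 2 + a₂ + a₃) := pow_le_pow_right₀ hinv1 (by omega)
  · have h2 : Real.log M ≤ (K + 1) ^ 2 + 2 * Real.log (1 / η) := by
      have h3 := Real.log_le_log hMpos hMle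
      rw [Real.log_mul (by positivity) (by positivity), Real.log_pow] at h3
      have h4 := Real.log_le_sub_one_of_pos (show 0 < (K + 1) ^ 2 + 1 by positivity)
      push_cast at h3
      linarith
    have h5 : K / 2 * (1 + Real.log M) ≤ K / 2 * (1 + ((K + 1) ^ 2 + 2 * Real.log (1 / η))) :=
      mul_le_mul_of_nonneg_left (by linarith) (by positivity)
    have h6 : K / 2 * (1 + ((K + 1) ^ 2 + 2 * Real.log (1 / η))) ≤
        (K / 2 * (1 + (K + 1) ^ 2) + K) * (1 + Real.log (1 / η)) := by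
      have : 0 ≤ K / 2 * (1 + (K + 1) ^ 2) * Real.log (1 / η) := by positivity
      nlinarith
    refine (b2.trans (h5.trans h6)).trans ?_
    apply mul_le_mul_of_nonneg_right _ (by linarith)
    push_cast
    have : (0 : ℝ) ≤ a₁ := by positivity
    have : (0 : ℝ) ≤ a₃ := by positivity
    linarith
  · have h2 := hclose t
    have h3 := abs_sub_abs_le_abs_sub (p t) (φ t)
    have h4 := hφb t
    push_cast
    have : (0 : ℝ) ≤ a₁ := by positivity
    have : (0 : ℝ) ≤ a₂ := by positivity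
    linarith

end Pool.Agent.Helper59.GP
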