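import Pool.Agent.Helper18.GP.Disc
import Pool.Agent.Helper87.GP.LowerFin
import Pool.Agent.Helper59.GP.Lip

/-!
# Project GP: the means of a Lipschitz function, both bounds to all orders
-/

set_option autoImplicit false

namespace Pool.Agent.Helper59.GP

open Finset Filter Topology MeasureTheory
open Pool.Agent.Helper18.GP (gp nm TC lam Sp one_le_mgf lam_mono upper_all)
open Pool.Agent.Helper87.GP (mg mg_pos mg_cont mg_lower lower_all)
open Pool.Agent.Helper78.KD (freq_of_limsup liminf_of_event)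

/-- the rate: the Legendre transform of the cumulant function -/
noncomputable def rateL (φ : ℝ → ℝ) (δ : ℝ) : ℝ := ⨆ θ : ℝ, (θ * δ - lam φ θ)

theorem lam_eq (φ : ℝ → ℝ) (θ : ℝ) : lam φ θ = Real.log (mg φ θ) := rfl

theorem lam_nonneg {φ : ℝ → ℝ} (hφ : Continuous φ) (hm : ∫ t in (0:ℝ)..1, φ t = 0) (θ : ℝ) :
    0 ≤ lam φ θ := Real.log_nonneg (one_le_mgf hφ hm θ)

theorem lam_cont {φ : ℝ → ℝ} (hφ : Continuous φ) : Continuous (lam φ) := by
  have h : lam φ = fun θ => Real.log (mg φ θ) := rfl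
  rw [h]
  exact (mg_cont hφ).log fun θ => (mg_pos hφ θ).ne'

/-- from convexity -/
theorem lam_scale {φ : ℝ → ℝ} (hφ : Continuous φ) (θ : ℝ) {p : ℝ} (hp : 1 ≤ p) :
    p * lam φ θ ≤ lam φ (p * θ) := by
  have hm := mg_pos hφ θ
  have h1 : ∀ t, 1 + p * (Real.exp (θ * φ t) / mg φ θ - 1) ≤ Real.exp (p * θ * φ t) / mg φ θ ^ p := by
    intro t
    have h2 := one_add_mul_self_le_rpow_one_add (s := Real.exp (θ * φ t) / mg φ θ - 1) (by
      have : 0 < Real.exp (θ * φ t) / mg φ θ := div_pos (Real.exp_pos _) hm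
      linarith) hp
    refine h2.trans (le_of_eq ?_)
    rw [add_sub_cancel, Real.div_rpow (Real.exp_pos _).le hm.le, ← Real.exp_mul]
    congr 2
    ring
  have hc1 : Continuous fun t => Real.exp (θ * φ t) := by fun_prop
  have hc2 : Continuous fun t => Real.exp (p * θ * φ t) := by fun_prop
  have h3 : ∫ t in (0:ℝ)..1, (1 + p * (Real.exp (θ * φ t) / mg φ θ - 1)) ≤
      ∫ t in (0:ℝ)..1, Real.exp (p * θ * φ t) / mg φ θ ^ p :=
    intervalIntegral.integral_mono_on (by norm_num) (Continuous.intervalIntegrable (by fun_prop) _ _)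
      (Continuous.intervalIntegrable (by fun_prop) _ _) fun t _ => h1 t
  have h4 : ∫ t in (0:ℝ)..1, (1 + p * (Real.exp (θ * φ t) / mg φ θ - 1)) = 1 := by
    rw [intervalIntegral.integral_add (by simp) (Continuous.intervalIntegrable (by fun_prop) _ _),
      intervalIntegral.integral_const_mul, intervalIntegral.integral_sub
        (Continuous.intervalIntegrable (by fun_prop) _ _) (by simp), intervalIntegral.integral_div]
    have h5 : ∫ t in (0:ℝ)..1, Real.exp (θ * φ t) = mg φ θ := rfl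
    rw [h5, div_self hm.ne']
    simp
  rw [h4, intervalIntegral.integral_div] at h3
  have h6 : ∫ t in (0:ℝ)..1, Real.exp (p * θ * φ t) = mg φ (p * θ) := rfl
  rw [h6, le_div_iff₀ (Real.rpow_pos_of_pos hm p), one_mul] at h3
  have h7 := Real.log_le_log (Real.rpow_pos_of_pos hm p) h3
  rw [Real.log_rpow hm] at h7
  exact h7

theorem lam_low {φ : ℝ → ℝ} (hφ : Continuous φ) {M V : ℝ} (hb : ∀ t, |φ t| ≤ M) (hM : 1 ≤ M)
    (hm : ∫ t in (0:ℝ)..1, φ t = 0) (hV0 : 0 < V) (hVM : V ≤ M ^ 2) (hV : V ≤ ∫ t in (0:ℝ)..1, φ t ^ 2)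
    {θ : ℝ} (h0 : 0 ≤ θ) (h1 : θ * (4 * M ^ 3) ≤ V) : θ ^ 2 * V / 8 ≤ lam φ θ := by
  have hM0 : 0 < M := by linarith
  have h2 : θ * M ≤ 1 := by
    have h3 : θ * (4 * M ^ 3) ≤ M ^ 2 := h1.trans hVM
    have h4 : (4 * (θ * M) - 1) * M ^ 2 ≤ 0 := by nlinarith
    have h5 : 0 < M ^ 2 := by positivity
    nlinarith
  have h3 := mg_lower hφ hb hm hV h0 h2
  have h4 : (θ * M) ^ 3 ≤ θ ^ 2 * V / 4 := by
    have h5 : (θ * M) ^ 3 = θ ^ 2 * (θ * M ^ 3) := by ring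
    rw [h5]
    have h6 : θ * M ^ 3 ≤ V / 4 := by linarith
    have := mul_le_mul_of_nonneg_left h6 (sq_nonneg θ)
    linarith
  have h5 : 1 + θ ^ 2 * V / 4 ≤ mg φ θ := by linarith
  have hx0 : 0 ≤ θ ^ 2 * V / 4 := by positivity
  have hx1 : θ ^ 2 * V / 4 ≤ 1 := by
    have h6 : θ ^ 2 * V ≤ (θ * M) ^ 2 := by
      rw [mul_pow]
      exact mul_le_mul_of_nonneg_left hVM (sq_nonneg θ)
    have h7 : (θ * M) ^ 2 ≤ 1 := pow_le_one₀ (by positivity) h2
    linarith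
  have h6 : Real.log (1 + θ ^ 2 * V / 4) ≤ lam φ θ := Real.log_le_log (by positivity) h5
  have h7 := Real.one_sub_inv_le_log_of_pos (show 0 < 1 + θ ^ 2 * V / 4 by positivity)
  have h8 : θ ^ 2 * V / 4 / 2 ≤ 1 - (1 + θ ^ 2 * V / 4)⁻¹ := by
    have h9 : 1 - (1 + θ ^ 2 * V / 4)⁻¹ = (θ ^ 2 * V / 4) / (1 + θ ^ 2 * V / 4) := by
      field_simp
      ring
    rw [h9]
    apply div_le_div_of_nonneg_left hx0 (by positivity)
    linarith
  linarith

/-- beyond `8 δ / V` the exponent does not help -/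
theorem lam_far {φ : ℝ → ℝ} (hφ : Continuous φ) {M V : ℝ} (hb : ∀ t, |φ t| ≤ M) (hM : 1 ≤ M)
    (hm : ∫ t in (0:ℝ)..1, φ t = 0) (hV0 : 0 < V) (hVM : V ≤ M ^ 2) (hV : V ≤ ∫ t in (0:ℝ)..1, φ t ^ 2)
    {θ δ : ℝ} (h0 : 0 < θ) (hδ : 8 * δ ≤ θ * V) (hδ1 : δ * (32 * M ^ 3) ≤ V ^ 2) :
    θ * δ ≤ lam φ θ := by
  have hM0 : 0 < M := by linarith
  obtain ⟨θ₁, hθ₁⟩ : ∃ θ₁ : ℝ, θ₁ = V / (4 * M ^ 3) := ⟨_, rfl⟩
  have hθ₁0 : 0 < θ₁ := by
    rw [hθ₁]
    positivity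
  have h1 : θ₁ * (4 * M ^ 3) = V := by
    rw [hθ₁]
    field_simp
  by_cases h : θ ≤ θ₁
  · have h2 := lam_low hφ hb hM hm hV0 hVM hV h0.le (by
      calc θ * (4 * M ^ 3) ≤ θ₁ * (4 * M ^ 3) := mul_le_mul_of_nonneg_right h (by positivity)
        _ = V := h1)
    have h3 : θ * (8 * δ) ≤ θ * (θ * V) := mul_le_mul_of_nonneg_left hδ h0.le
    nlinarith
  · push Not at h
    have h2 := lam_low hφ hb hM hm hV0 hVM hV hθ₁0.le h1.le
    have h3 := lam_scale hφ θ₁ (p := θ / θ₁) (by rw [le_div_iff₀ hθ₁0]; linarith)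
    have h4 : θ / θ₁ * θ₁ = θ := by field_simp
    rw [h4] at h3
    have h5 : θ / θ₁ * (θ₁ ^ 2 * V / 8) ≤ θ / θ₁ * lam φ θ₁ :=
      mul_le_mul_of_nonneg_left h2 (by positivity)
    have h6 : θ / θ₁ * (θ₁ ^ 2 * V / 8) = θ * (θ₁ * V / 8) := by
      field_simp
    have h7 : δ ≤ θ₁ * V / 8 := by
      rw [hθ₁, div_mul_eq_mul_div, div_div, le_div_iff₀ (by positivity)]
      nlinarith
    have h8 := mul_le_mul_of_nonneg_left h7 h0.le
    linarith

theorem rate_attained {φ : ℝ → ℝ} (hφ : Continuous φ) {M V : ℝ} (hb : ∀ t, |φ t| ≤ M) (hM : 1 ≤ M)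
    (hm : ∫ t in (0:ℝ)..1, φ t = 0) (hV0 : 0 < V) (hVM : V ≤ M ^ 2) (hV : V ≤ ∫ t in (0:ℝ)..1, φ t ^ 2)
    {A δ : ℝ} (hA : 8 ≤ A * V) (hA0 : 0 ≤ A) (h0 : 0 < δ) (hδ1 : δ * (32 * M ^ 3) ≤ V ^ 2) :
    (∃ θ, 0 ≤ θ ∧ θ ≤ A * δ ∧ rateL φ δ = θ * δ - lam φ θ) ∧ ∀ θ, θ * δ - lam φ θ ≤ rateL φ δ := by
  have hc := lam_cont hφ
  obtain ⟨θ, hθ, hmax⟩ := (isCompact_Icc (a := (0:ℝ)) (b := A * δ)).exists_isMaxOn
    ⟨0, by constructor <;> positivity⟩ (f := fun θ => θ * δ - lam φ θ) (by fun_prop)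
  have hlam0 : lam φ 0 = 0 := by
    unfold Pool.Agent.Helper18.GP.lam
    simp
  have hmax0 : 0 ≤ θ * δ - lam φ θ := by
    have h1 := hmax (show (0:ℝ) ∈ Set.Icc 0 (A * δ) by constructor <;> positivity)
    simp only [Set.mem_ofPred_eq, zero_mul, hlam0, sub_zero] at h1
    exact h1
  have hall : ∀ θ', θ' * δ - lam φ θ' ≤ θ * δ - lam φ θ := by
    intro θ'
    rcases lt_or_ge θ' 0 with h1 | h1
    · have h2 := lam_nonneg hφ hm θ'
      have h3 : θ' * δ ≤ 0 := mul_nonpos_of_nonpos_of_nonneg h1.le h0.le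
      linarith
    · rcases le_or_gt θ' (A * δ) with h2 | h2
      · exact hmax (show θ' ∈ Set.Icc 0 (A * δ) from ⟨h1, h2⟩)
      · have h3 : 0 < θ' := lt_of_le_of_lt (by positivity) h2
        have h4 := lam_far hφ hb hM hm hV0 hVM hV h3 (by nlinarith) hδ1
        linarith
  have heq : rateL φ δ = θ * δ - lam φ θ := by
    unfold rateL
    exact le_antisymm (ciSup_le hall) (le_ciSup ⟨_, by rintro _ ⟨θ', rfl⟩; exact hall θ'⟩ θ)
  exact ⟨⟨θ, hθ.1, hθ.2, heq⟩, fun θ' => by rw [heq]; exact hall θ'⟩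

theorem phi_bd {φ : ℝ → ℝ} {K : ℝ} (hper : ∀ t, φ (t + 1) = φ t)
    (hlip : ∀ s t, |φ s - φ t| ≤ K * |s - t|) (hK : 0 ≤ K) (t : ℝ) : |φ t| ≤ |φ 0| + K := by
  have h1 : Function.Periodic φ 1 := hper
  have h2 : φ (Int.fract t) = φ t := by
    have h3 := h1.sub_zsmul_eq (x := t) ⌊t⌋
    rw [zsmul_eq_mul, mul_one] at h3
    exact h3
  rw [← h2]
  have h4 := hlip (Int.fract t) 0
  have h5 := abs_sub_abs_le_abs_sub (φ (Int.fract t)) (φ 0)
  have h6 : |Int.fract t - 0| ≤ 1 := by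
    rw [sub_zero, abs_of_nonneg (Int.fract_nonneg t)]
    exact (Int.fract_lt_one t).le
  have h7 := mul_le_mul_of_nonneg_left h6 hK
  linarith

theorem lip_K {φ : ℝ → ℝ} {K : ℝ} (hlip : ∀ s t, |φ s - φ t| ≤ K * |s - t|) : 0 ≤ K := by
  have h1 := hlip 0 1
  have h2 := abs_nonneg (φ 0 - φ 1)
  have h3 : |(0:ℝ) - 1| = 1 := by norm_num
  rw [h3, mul_one] at h1
  linarith

theorem lip_cont {φ : ℝ → ℝ} {K : ℝ} (hlip : ∀ s t, |φ s - φ t| ≤ K * |s - t|) : Continuous φ := by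
  have : LipschitzWith (Real.toNNReal K) φ := LipschitzWith.of_dist_le_mul fun s t => by
    rw [Real.dist_eq, Real.dist_eq, Real.coe_toNNReal K (lip_K hlip)]
    exact hlip s t
  exact this.continuous

theorem sp_sub_le {φ p : ℝ → ℝ} {η : ℝ} (h : ∀ t, |p t - φ t| ≤ η) (s : ℕ → ℝ) (N : ℕ) (x : ℝ) :
    |Sp p s N x - Sp φ s N x| ≤ N * η := by
  unfold Pool.Agent.Helper18.GP.Sp
  rw [← Finset.sum_sub_distrib]
  refine (Finset.abs_sum_le_sum_abs _ _).trans ((Finset.sum_le_sum fun n _ => h _).trans (le_of_eq ?_))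
  rw [Finset.sum_const, Finset.card_range, nsmul_eq_mul]

/-- **The means of a Lipschitz function.** -/
theorem mean_all {φ : ℝ → ℝ} {K : ℝ} (hper : ∀ t, φ (t + 1) = φ t)
    (hlip : ∀ s t, |φ s - φ t| ≤ K * |s - t|) (hmean : ∫ t in (0:ℝ)..1, φ t = 0)
    (hne : ∃ t, φ t ≠ 0) {a₀ b₀ : ℝ} (ha : 1 < a₀) (hab : a₀ < b₀) (k : ℕ) :
    ∃ C δ₀ : ℝ, 0 < C ∧ 0 < δ₀ ∧ ∀ a b δ : ℝ, a₀ ≤ a → a < b → b ≤ b₀ → 0 < δ → δ ≤ δ₀ →
      ∀ s : ℕ → ℝ,
      ENNReal.ofReal (1 - (rateL φ δ + C * δ ^ k) / Real.log b) ≤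
        dimH {x | x ∈ Set.Ioo a b ∧ δ ≤ liminf (fun N : ℕ =>
          (∑ n ∈ Finset.range N, φ (x ^ (n + 1) + s n)) / N) atTop} ∧
      dimH {x | x ∈ Set.Ioo a b ∧ δ ≤ limsup (fun N : ℕ =>
          (∑ n ∈ Finset.range N, φ (x ^ (n + 1) + s n)) / N) atTop} ≤
        ENNReal.ofReal (1 - (rateL φ δ - C * δ ^ k) / Real.log b) := by
  have hK := lip_K hlip
  have hφ := lip_cont hlip
  obtain ⟨M, hMdef⟩ : ∃ M : ℝ, M = |φ 0| + K + 1 := ⟨_, rfl⟩
  have hM : 1 ≤ M := by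
    have := abs_nonneg (φ 0)
    linarith
  have hb : ∀ t, |φ t| ≤ M := fun t => by
    have := phi_bd hper hlip hK t
    linarith
  obtain ⟨V, hVdef⟩ : ∃ V : ℝ, V = ∫ t in (0:ℝ)..1, φ t ^ 2 := ⟨_, rfl⟩
  have hV0 : 0 < V := by
    rw [hVdef]
    obtain ⟨t, ht⟩ := hne
    have h1 : Function.Periodic φ 1 := hper
    have h2 : φ (Int.fract t) = φ t := by
      have h3 := h1.sub_zsmul_eq (x := t) ⌊t⌋
      rw [zsmul_eq_mul, mul_one] at h3
      exact h3
    refine intervalIntegral.integral_pos (by norm_num) (by fun_prop) (fun x _ => sq_nonneg _)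
      ⟨Int.fract t, ⟨Int.fract_nonneg t, (Int.fract_lt_one t).le⟩, ?_⟩
    rw [h2]
    positivity
  have hVM : V ≤ M ^ 2 := by
    rw [hVdef]
    have h1 : ∫ t in (0:ℝ)..1, φ t ^ 2 ≤ ∫ _ in (0:ℝ)..1, M ^ 2 :=
      intervalIntegral.integral_mono_on (by norm_num) (Continuous.intervalIntegrable (by fun_prop) _ _)
        (by simp) fun t _ => by
          rw [← sq_abs (φ t)]
          exact pow_le_pow_left₀ (abs_nonneg _) (hb t) 2
    simpa using h1
  obtain ⟨A', hA'1, hA'⟩ := lip_approx hper hlip hmean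
  obtain ⟨B, hB⟩ : ∃ B : ℕ, 32 / V ≤ B := exists_nat_ge _
  obtain ⟨A, hAdef⟩ : ∃ A : ℕ, A = A' * (k + 2) + B + 1 := ⟨_, rfl⟩
  have hA1 : 1 ≤ A := by omega
  have hA32 : 32 / V ≤ A := hB.trans (by
    rw [hAdef]
    push_cast
    have : (0:ℝ) ≤ A' * (k + 2) := by positivity
    linarith)
  have hA0 : (0:ℝ) < A := by exact_mod_cast hA1
  have hAV : 32 ≤ A * V := by
    rwa [div_le_iff₀ hV0] at hA32
  obtain ⟨C₁, δ₁, hC₁, hδ₁, _, hup⟩ := upper_all ha A k hA1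
  obtain ⟨C₂, δ₂, hC₂, hδ₂, _, hlow⟩ := lower_all ha hab A k hA1
  obtain ⟨δ₃, hδ₃⟩ : ∃ δ₃ : ℝ, δ₃ = V ^ 2 / (32 * M ^ 3) := ⟨_, rfl⟩
  have hδ₃0 : 0 < δ₃ := by
    rw [hδ₃]
    positivity
  obtain ⟨δ₄, hδ₄⟩ : ∃ δ₄ : ℝ, δ₄ = V / (4 * M) := ⟨_, rfl⟩
  have hδ₄0 : 0 < δ₄ := by
    rw [hδ₄]
    positivity
  refine ⟨C₁ + C₂ + 3 * A, min (min δ₁ δ₂) (min (min δ₃ δ₄) (1 / 4)), by positivity, by positivity, ?_⟩
  intro a b δ haa hab' hbb h0 hδ s
  have d1 : δ ≤ δ₁ := hδ.trans ((min_le_left _ _).trans (min_le_left _ _))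
  have d2 : δ ≤ δ₂ := hδ.trans ((min_le_left _ _).trans (min_le_right _ _))
  have d3 : δ ≤ δ₃ := hδ.trans ((min_le_right _ _).trans ((min_le_left _ _).trans (min_le_left _ _)))
  have d4 : δ ≤ δ₄ := hδ.trans ((min_le_right _ _).trans ((min_le_left _ _).trans (min_le_right _ _)))
  have d5 : δ ≤ 1 / 4 := hδ.trans ((min_le_right _ _).trans (min_le_right _ _))
  have hδ1 : δ ≤ 1 := by linarith
  have hlb : 0 < Real.log b := Real.log_pos (by linarith)
  obtain ⟨η, hη⟩ : ∃ η : ℝ, η = δ ^ (k + 1 + 1) := ⟨_, rfl⟩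
  have hη0 : 0 < η := by
    rw [hη]
    positivity
  have hηk : δ * η ≤ δ ^ k := by
    have h1 : δ * η = δ ^ k * (δ ^ 3) := by
      rw [hη]
      ring
    rw [h1]
    have h2 : δ ^ 3 ≤ 1 := pow_le_one₀ h0.le hδ1
    have h3 : 0 ≤ δ ^ k := by positivity
    nlinarith
  have hη2 : 2 * η ≤ δ := by
    have h1 : η ≤ δ ^ 2 := by
      rw [hη]
      exact pow_le_pow_of_le_one h0.le hδ1 (by omega)
    nlinarith
  have hη12 : η ≤ 1 / 2 := by linarith
  obtain ⟨H, c, p, hTC0, hpφ⟩ := hA' η hη0 hη12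
  have hTC : TC A δ H c p := hTC0.scale (k := k + 1) hη h0 hδ1 (by
    rw [hAdef]
    have : A' * (k + 1 + 1) = A' * (k + 2) := rfl
    omega)
  have hpc := hTC.cont
  have hd3 : δ * (32 * M ^ 3) ≤ V ^ 2 := by
    have h1 := mul_le_mul_of_nonneg_right d3 (show 0 ≤ 32 * M ^ 3 by positivity)
    have h2 : δ₃ * (32 * M ^ 3) = V ^ 2 := by
      rw [hδ₃]
      field_simp
    linarith
  obtain ⟨⟨θ, hθ0, hθA, hθ⟩, hrate⟩ := rate_attained hφ hb hM hmean hV0 hVM hVdef.le (A := A) (by linarith)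
    hA0.le h0 hd3
  have hAη : ∀ θ' : ℝ, θ' ≤ A * δ → 3 * (θ' * η) ≤ 3 * A * δ ^ k := by
    intro θ' h1
    have h2 := mul_le_mul_of_nonneg_right h1 hη0.le
    have h3 := mul_le_mul_of_nonneg_left hηk hA0.le
    nlinarith
  have hfb : ∀ x : ℝ, ∀ N : ℕ, |(∑ n ∈ Finset.range N, φ (x ^ (n + 1) + s n)) / (N : ℝ)| ≤ M := by
    intro x N
    rcases Nat.eq_zero_or_pos N with h | h
    · subst h
      simp
      linarith
    · have hN : (0:ℝ) < N := by exact_mod_cast h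
      rw [abs_div, abs_of_pos hN, div_le_iff₀ hN]
      refine (Finset.abs_sum_le_sum_abs _ _).trans ((Finset.sum_le_sum fun n _ => hb _).trans (le_of_eq ?_))
      rw [Finset.sum_const, Finset.card_range, nsmul_eq_mul]
      ring
  constructor
  · -- lower bound
    have hp2 : 16 / (A : ℝ) ≤ ∫ t in (0:ℝ)..1, (p t) ^ 2 := by
      have h1 : ∀ t, φ t ^ 2 - 2 * M * η ≤ p t ^ 2 := by
        intro t
        have h2 := abs_le.1 (hpφ t)
        have h3 := abs_le.1 (hb t)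
        have h4 : p t ^ 2 = φ t ^ 2 + 2 * φ t * (p t - φ t) + (p t - φ t) ^ 2 := by ring
        have h5 : |φ t * (p t - φ t)| ≤ M * η := by
          rw [abs_mul]
          exact mul_le_mul (hb t) (hpφ t) (abs_nonneg _) (by linarith)
        have h6 := (abs_le.1 h5).1
        nlinarith [sq_nonneg (p t - φ t)]
      have h2 : ∫ t in (0:ℝ)..1, (φ t ^ 2 - 2 * M * η) ≤ ∫ t in (0:ℝ)..1, p t ^ 2 :=
        intervalIntegral.integral_mono_on (by norm_num) (Continuous.intervalIntegrable (by fun_prop) _ _)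
          (Continuous.intervalIntegrable (by fun_prop) _ _) fun t _ => h1 t
      rw [intervalIntegral.integral_sub (Continuous.intervalIntegrable (by fun_prop) _ _) (by simp),
        ← hVdef] at h2
      simp only [intervalIntegral.integral_const, sub_zero, smul_eq_mul, one_mul] at h2
      have h3 : 2 * M * η ≤ V / 4 := by
        have h4 : M * (4 * δ) ≤ V := by
          have h5 := mul_le_mul_of_nonneg_right d4 (show 0 ≤ 4 * M by positivity)
          have h6 : δ₄ * (4 * M) = V := by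
            rw [hδ₄]
            field_simp
          nlinarith
        nlinarith
      have h4 : 16 / (A : ℝ) ≤ V / 2 := by
        rw [div_le_div_iff₀ hA0 (by norm_num)]
        linarith
      linarith
    have h1 := hlow a b δ haa hab' hbb h0 d2 H c p hTC hp2 s (δ + 2 * η) (by linarith) (by linarith)
      (rateL φ δ + 3 * A * δ ^ k) (by
        intro θ' h2 h3
        have h4 := lam_mono hφ hpc (η := η) (fun t => by
          have := (abs_le.1 (hpφ t)).1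
          linarith) h2
        have h5 := hrate θ'
        have h6 := hAη θ' h3
        nlinarith)
    refine (ENNReal.ofReal_le_ofReal ?_).trans (h1.trans (dimH_mono ?_))
    · have h2 : (rateL φ δ + 3 * A * δ ^ k + C₂ * δ ^ k) / Real.log b ≤
          (rateL φ δ + (C₁ + C₂ + 3 * A) * δ ^ k) / Real.log b := by
        apply div_le_div_of_nonneg_right _ hlb.le
        have : 0 ≤ C₁ * δ ^ k := by positivity
        linarith
      linarith
    · rintro x ⟨hx, hN⟩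
      refine ⟨hx, liminf_of_event (hfb x) ?_⟩
      filter_upwards [hN, eventually_ge_atTop 1] with N h2 h3
      have hNr : (0:ℝ) < N := by
        have : 0 < N := by omega
        exact_mod_cast this
      rw [le_div_iff₀ hNr]
      have h4 := (abs_le.1 (sp_sub_le hpφ s N x)).2
      have h5 : Sp φ s N x = ∑ n ∈ Finset.range N, φ (x ^ (n + 1) + s n) := rfl
      rw [← h5]
      have h6 : 0 ≤ N * η := by positivity
      nlinarith
  · -- upper bound
    have h1 := hup a b δ haa hab' h0 d1 H c p hTC θ hθ0 hθA s (δ - 2 * η)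
    refine (dimH_mono ?_).trans (h1.trans (ENNReal.ofReal_le_ofReal ?_))
    · rintro x ⟨hx, hls⟩
      refine ⟨⟨hx.1.le, hx.2.le⟩, ?_⟩
      have h2 := freq_of_limsup (δ' := δ - η) (hfb x) hls (by linarith)
      refine (h2.and_eventually (eventually_ge_atTop 1)).mono ?_
      rintro N ⟨h3, h4⟩
      have hNr : (0:ℝ) < N := by
        have : 0 < N := by omega
        exact_mod_cast this
      rw [lt_div_iff₀ hNr] at h3
      have h5 := (abs_le.1 (sp_sub_le hpφ s N x)).1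
      have h6 : Sp φ s N x = ∑ n ∈ Finset.range N, φ (x ^ (n + 1) + s n) := rfl
      rw [← h6] at h3
      nlinarith
    · have h2 : (rateL φ δ - (C₁ + C₂ + 3 * A) * δ ^ k) / Real.log b ≤
          (θ * (δ - 2 * η) - lam p θ - C₁ * δ ^ k) / Real.log b := by
        apply div_le_div_of_nonneg_right _ hlb.le
        have h3 := lam_mono hpc hφ (η := η) (fun t => by
          have := (abs_le.1 (hpφ t)).2
          linarith) hθ0
        have h4 := hAη θ hθA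
        have : 0 ≤ C₂ * δ ^ k := by positivity
        rw [hθ]
        nlinarith
      linarith

end Pool.Agent.Helper59.GP
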