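import Pool.Agent.Helper59.GP.Mean

/-!
# Project GP: Weyl sums, both bounds to all orders
-/

set_option autoImplicit false

namespace Pool.Agent.Helper59.GP

open Finset Filter Topology MeasureTheory
open Pool.Agent.Helper82.FK (e)
open Pool.Agent.Helper18.GP (gp nm TC lam Sp)
open Pool.Agent.Helper87.GP (mg)
open Pool.Agent.Helper78.KD (freq_of_limsup liminf_of_event dimH_finset freq_finset)

/-- the cosine of frequency `m` -/
noncomputable def cs (m : ℕ) (t : ℝ) : ℝ := Real.cos (2 * Real.pi * (m * t))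

theorem cs_cont (m : ℕ) : Continuous (cs m) := by
  unfold cs
  fun_prop

theorem cs_eq_re (m : ℕ) (t : ℝ) : cs m t = (e (m * t)).re := by
  unfold cs Pool.Agent.Helper82.FK.e
  rw [Complex.exp_ofReal_mul_I_re]

theorem cs_per (m : ℕ) (t : ℝ) : cs m (t + 1) = cs m t := by
  rw [cs_eq_re, cs_eq_re]
  have h1 : (m : ℝ) * (t + 1) = m * t + ((m : ℤ) : ℝ) := by
    push_cast
    ring
  rw [h1, e_add, e_int, mul_one]

theorem e_sub_le (x y : ℝ) : ‖e x - e y‖ ≤ 2 * Real.pi * |x - y| := by
  have h1 : e x - e y = e y * (e (x - y) - 1) := by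
    rw [mul_sub, ← e_add, mul_one]
    congr 2
    ring
  rw [h1, norm_mul, e_norm, one_mul]
  exact e_sub_one _

theorem cs_lip (m : ℕ) (s t : ℝ) : |cs m s - cs m t| ≤ (2 * Real.pi * m) * |s - t| := by
  rw [cs_eq_re, cs_eq_re, ← Complex.sub_re]
  refine (Complex.abs_re_le_norm _).trans ((e_sub_le _ _).trans (le_of_eq ?_))
  rw [← mul_sub, abs_mul, Nat.abs_cast]
  ring

/-- the average over a period does not depend on the frequency -/
theorem cs_int {m : ℕ} (hm : 1 ≤ m) (g : ℝ → ℝ) (hg : Continuous g) :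
    ∫ t in (0:ℝ)..1, g (cs m t) = ∫ t in (0:ℝ)..1, g (cs 1 t) := by
  have hmr : (m : ℝ) ≠ 0 := by
    have : 0 < m := by omega
    exact_mod_cast this.ne'
  have hc := cs_cont 1
  have hper : Function.Periodic (fun t => g (cs 1 t)) 1 := fun t => by
    simp only [cs_per]
  have h1 : ∀ t, g (cs m t) = (fun t => g (cs 1 t)) (m * t) := by
    intro t
    simp only
    unfold cs
    push_cast
    rw [one_mul]
  have h2 : ∫ t in (0:ℝ)..1, g (cs m t) = ∫ t in (0:ℝ)..1, (fun t => g (cs 1 t)) (m * t) :=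
    intervalIntegral.integral_congr fun t _ => h1 t
  rw [h2, intervalIntegral.integral_comp_mul_left (fun t => g (cs 1 t)) hmr]
  have h3 := hper.intervalIntegral_add_zsmul_eq (m : ℤ) 0 (fun a b => Continuous.intervalIntegrable (by fun_prop) _ _)
  rw [zero_add, zero_add] at h3
  rw [mul_zero, mul_one]
  have h4 : ((m : ℤ) • (1 : ℝ)) = m := by simp
  rw [h4] at h3
  rw [h3]
  simp only [zsmul_eq_mul, smul_eq_mul, Int.cast_natCast]
  field_simp

theorem cs_mean {m : ℕ} (hm : 1 ≤ m) : ∫ t in (0:ℝ)..1, cs m t = 0 := by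
  have h1 : ∫ t in (0:ℝ)..1, cs m t = ∫ t in (0:ℝ)..1, cs 1 t := cs_int hm (fun x => x) continuous_id
  rw [h1]
  have h2 : ∀ t ∈ Set.uIcc (0:ℝ) 1, HasDerivAt (fun t => Real.sin (2 * Real.pi * t) / (2 * Real.pi)) (cs 1 t) t := by
    intro t _
    have h3 : HasDerivAt (fun t => 2 * Real.pi * t) (2 * Real.pi) t := by
      have := (hasDerivAt_id t).const_mul (2 * Real.pi)
      simpa using this
    refine ((h3.sin).div_const _).congr_deriv ?_
    unfold cs
    have := Real.pi_ne_zero
    push_cast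
    rw [one_mul]
    field_simp
  rw [intervalIntegral.integral_eq_sub_of_hasDerivAt h2 ((cs_cont 1).intervalIntegrable _ _)]
  simp

theorem cs_sq {m : ℕ} (hm : 1 ≤ m) : ∫ t in (0:ℝ)..1, cs m t ^ 2 = 1 / 2 := by
  have h1 : ∀ t, cs m t ^ 2 = 1 / 2 + cs (2 * m) t / 2 := by
    intro t
    unfold cs
    rw [Real.cos_sq]
    congr 3
    push_cast
    ring
  have hc := cs_cont (2 * m)
  have h2 : ∫ t in (0:ℝ)..1, cs (2 * m) t / 2 = 0 := by
    rw [intervalIntegral.integral_div, cs_mean (by omega), zero_div]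
  rw [intervalIntegral.integral_congr fun t _ => h1 t,
    intervalIntegral.integral_add (by simp) (Continuous.intervalIntegrable (by fun_prop) _ _), h2]
  simp

theorem cs_lam {m : ℕ} (hm : 1 ≤ m) (θ : ℝ) : lam (cs m) θ = lam (cs 1) θ := by
  unfold Pool.Agent.Helper18.GP.lam
  rw [cs_int hm (fun x => Real.exp (θ * x)) (by fun_prop)]

theorem cs_rate {m : ℕ} (hm : 1 ≤ m) (δ : ℝ) : rateL (cs m) δ = rateL (fun t => Real.cos (2 * Real.pi * t)) δ := by
  have h1 : cs 1 = fun t => Real.cos (2 * Real.pi * t) := by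
    funext t
    unfold cs
    push_cast
    rw [one_mul]
  rw [← h1]
  unfold rateL
  simp_rw [cs_lam hm]

/-- a direction of a finite grid -/
theorem exists_dir (z : ℂ) {M : ℕ} (hM : 1 ≤ M) :
    ∃ j ∈ Finset.range M, ‖z‖ * (1 - 2 * Real.pi / M) ≤ (e (j / M) * z).re := by
  have hMr : (0:ℝ) < M := by
    have : 0 < M := by omega
    exact_mod_cast this
  have hpi := Real.pi_pos
  obtain ⟨y, hy⟩ : ∃ y : ℝ, y = Int.fract (-(Complex.arg z / (2 * Real.pi))) := ⟨_, rfl⟩
  have hy0 : 0 ≤ y := by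
    rw [hy]
    exact Int.fract_nonneg _
  have hy1 : y < 1 := by
    rw [hy]
    exact Int.fract_lt_one _
  have hey : e y * z = (‖z‖ : ℂ) := by
    have h1 : e y = e (-(Complex.arg z / (2 * Real.pi))) := by
      have h2 := Int.floor_add_fract (-(Complex.arg z / (2 * Real.pi)))
      rw [← hy] at h2
      rw [← h2, e_add, e_int, one_mul]
    have h3 : (‖z‖ : ℂ) * e (Complex.arg z / (2 * Real.pi)) = z := by
      have h4 := Complex.norm_mul_exp_arg_mul_I z
      have h6 : e (Complex.arg z / (2 * Real.pi)) = Complex.exp (Complex.arg z * Complex.I) := by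
        unfold Pool.Agent.Helper82.FK.e
        congr 3
        field_simp
      rw [h6, h4]
    have h7 : e 0 = 1 := by
      have := e_int 0
      simpa using this
    have h5 : e (-(Complex.arg z / (2 * Real.pi))) * z = ‖z‖ := by
      calc e (-(Complex.arg z / (2 * Real.pi))) * z =
          e (-(Complex.arg z / (2 * Real.pi))) * ((‖z‖ : ℂ) * e (Complex.arg z / (2 * Real.pi))) := by
            rw [h3]
        _ = ‖z‖ * (e (-(Complex.arg z / (2 * Real.pi))) * e (Complex.arg z / (2 * Real.pi))) := by ring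
        _ = ‖z‖ := by rw [← e_add, neg_add_cancel, h7, mul_one]
    rw [h1, h5]
  refine ⟨⌊M * y⌋₊, ?_, ?_⟩
  · rw [Finset.mem_range, Nat.floor_lt (by positivity)]
    nlinarith
  · have h1 : |((⌊M * y⌋₊ : ℕ) : ℝ) / M - y| ≤ 1 / M := by
      have h2 := Nat.floor_le (show 0 ≤ M * y by positivity)
      have h3 := Nat.lt_floor_add_one (M * y)
      have h4 : ((⌊M * y⌋₊ : ℕ) : ℝ) / M - y = (((⌊M * y⌋₊ : ℕ) : ℝ) - M * y) / M := by
        field_simp
      rw [h4, abs_div, abs_of_pos hMr]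
      apply div_le_div_of_nonneg_right _ hMr.le
      rw [abs_le]
      constructor <;> linarith
    have h2 : (e (((⌊M * y⌋₊ : ℕ) : ℝ) / M) * z).re = (e y * z).re +
        ((e (((⌊M * y⌋₊ : ℕ) : ℝ) / M) - e y) * z).re := by
      rw [← Complex.add_re]
      congr 1
      ring
    have h3 : |((e (((⌊M * y⌋₊ : ℕ) : ℝ) / M) - e y) * z).re| ≤ 2 * Real.pi * (1 / M) * ‖z‖ := by
      refine (Complex.abs_re_le_norm _).trans ?_
      rw [norm_mul]
      apply mul_le_mul_of_nonneg_right _ (norm_nonneg _)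
      exact (e_sub_le _ _).trans (mul_le_mul_of_nonneg_left h1 (by positivity))
    rw [h2, hey, Complex.ofReal_re]
    have h4 := (abs_le.1 h3).1
    have h5 : ‖z‖ * (1 - 2 * Real.pi / M) = ‖z‖ - 2 * Real.pi * (1 / M) * ‖z‖ := by ring
    linarith

theorem exp_eq_e (y : ℝ) : Complex.exp (2 * Real.pi * Complex.I * (y : ℂ)) = e y := by
  unfold Pool.Agent.Helper82.FK.e
  congr 1
  push_cast
  ring

theorem cs_abs_le (m : ℕ) (t : ℝ) : |cs m t| ≤ 1 := Real.abs_cos_le_one _

/-- **Weyl sums.** -/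
theorem weyl_all (m : ℕ) (hm : 1 ≤ m) {a₀ b₀ : ℝ} (ha : 1 < a₀) (hab : a₀ < b₀) (k : ℕ) :
    ∃ C δ₀ : ℝ, 0 < C ∧ 0 < δ₀ ∧ ∀ a b δ : ℝ, a₀ ≤ a → a < b → b ≤ b₀ → 0 < δ → δ ≤ δ₀ →
      ∀ s : ℕ → ℝ,
      ENNReal.ofReal (1 - (rateL (fun t => Real.cos (2 * Real.pi * t)) δ + C * δ ^ k) / Real.log b) ≤
        dimH {x | x ∈ Set.Ioo a b ∧ δ ≤ liminf (fun N : ℕ =>
          ‖∑ n ∈ Finset.range N, Complex.exp (2 * Real.pi * Complex.I *
            ((m * (x ^ (n + 1) + s n) : ℝ) : ℂ))‖ / N) atTop} ∧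
      dimH {x | x ∈ Set.Ioo a b ∧ δ ≤ limsup (fun N : ℕ =>
          ‖∑ n ∈ Finset.range N, Complex.exp (2 * Real.pi * Complex.I *
            ((m * (x ^ (n + 1) + s n) : ℝ) : ℂ))‖ / N) atTop} ≤
        ENNReal.ofReal (1 - (rateL (fun t => Real.cos (2 * Real.pi * t)) δ - C * δ ^ k) / Real.log b) := by
  have hpi := Real.pi_pos
  have hmr : (0:ℝ) < m := by
    have : 0 < m := by omega
    exact_mod_cast this
  have hne : ∃ t, cs m t ≠ 0 := ⟨0, by
    unfold cs
    simp⟩
  obtain ⟨C₁, δ₁, hC₁, hδ₁, hall⟩ := mean_all (cs_per m) (cs_lip m) (cs_mean hm) hne ha hab k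
  refine ⟨C₁ + 16, min δ₁ (1 / 128), by positivity, by positivity, ?_⟩
  intro a b δ haa hab' hbb h0 hδ s
  have d1 : δ ≤ δ₁ := hδ.trans (min_le_left _ _)
  have d2 : δ ≤ 1 / 128 := hδ.trans (min_le_right _ _)
  have hδ1 : δ ≤ 1 := by linarith
  have hlb : 0 < Real.log b := Real.log_pos (by linarith)
  rw [← cs_rate hm]
  simp_rw [exp_eq_e]
  -- the norm of the sum
  have hnb : ∀ x : ℝ, ∀ N : ℕ, |‖∑ n ∈ Finset.range N, e (m * (x ^ (n + 1) + s n))‖ / (N : ℝ)| ≤ 1 := by
    intro x N
    rcases Nat.eq_zero_or_pos N with h | h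
    · subst h
      simp
    · have hN : (0:ℝ) < N := by exact_mod_cast h
      rw [abs_div, abs_of_pos hN, abs_of_nonneg (norm_nonneg _), div_le_iff₀ hN, one_mul]
      refine (norm_sum_le _ _).trans (le_of_eq ?_)
      simp [e_norm]
  have hfb : ∀ (s : ℕ → ℝ) (x : ℝ) (N : ℕ), |(∑ n ∈ Finset.range N, cs m (x ^ (n + 1) + s n)) / (N : ℝ)| ≤ 1 := by
    intro s x N
    rcases Nat.eq_zero_or_pos N with h | h
    · subst h
      simp
    · have hN : (0:ℝ) < N := by exact_mod_cast h
      rw [abs_div, abs_of_pos hN, div_le_iff₀ hN]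
      refine (Finset.abs_sum_le_sum_abs _ _).trans ((Finset.sum_le_sum fun n _ => cs_abs_le m _).trans (le_of_eq ?_))
      simp
  constructor
  · -- lower bound
    refine (ENNReal.ofReal_le_ofReal ?_).trans (((hall a b δ haa hab' hbb h0 d1 s).1).trans (dimH_mono ?_))
    · have h2 : (rateL (cs m) δ + C₁ * δ ^ k) / Real.log b ≤
          (rateL (cs m) δ + (C₁ + 16) * δ ^ k) / Real.log b := by
        apply div_le_div_of_nonneg_right _ hlb.le
        have : 0 ≤ δ ^ k := by positivity
        linarith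
      linarith
    · rintro x ⟨hx, hls⟩
      refine ⟨hx, hls.trans (liminf_le_liminf (Eventually.of_forall fun N => ?_) ?_ ?_)⟩
      · apply div_le_div_of_nonneg_right _ (Nat.cast_nonneg N)
        have h1 : ∑ n ∈ Finset.range N, cs m (x ^ (n + 1) + s n) =
            (∑ n ∈ Finset.range N, e (m * (x ^ (n + 1) + s n))).re := by
          rw [Complex.re_sum]
          exact Finset.sum_congr rfl fun n _ => cs_eq_re m _
        rw [h1]
        exact Complex.re_le_norm _
      · exact ⟨-1, by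
          rw [eventually_map]
          exact Eventually.of_forall fun N => (abs_le.1 (hfb s x N)).1⟩
      · exact IsBoundedUnder.isCoboundedUnder_ge
          ⟨1, by
            rw [eventually_map]
            exact Eventually.of_forall fun N => (abs_le.1 (hnb x N)).2⟩
  · -- upper bound
    obtain ⟨η, hη⟩ : ∃ η : ℝ, η = δ ^ (k + 1) := ⟨_, rfl⟩
    have hη0 : 0 < η := by
      rw [hη]
      positivity
    have hηδ : η ≤ δ := by
      rw [hη]
      exact pow_le_of_le_one h0.le hδ1 (by omega)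
    have hηk : η ≤ δ ^ k := by
      rw [hη]
      exact pow_le_pow_of_le_one h0.le hδ1 (by omega)
    obtain ⟨δ', hδ'⟩ : ∃ δ' : ℝ, δ' = δ * (1 - η) := ⟨_, rfl⟩
    have hδ'0 : 0 < δ' := by
      rw [hδ']
      apply mul_pos h0
      linarith
    have hδ'δ : δ' ≤ δ := by
      rw [hδ']
      nlinarith
    -- comparison of the rates
    have hcmp : rateL (cs m) δ ≤ rateL (cs m) δ' + 16 * δ ^ k := by
      obtain ⟨⟨θ, hθ0, hθA, hθ⟩, -⟩ := rate_attained (cs_cont m) (cs_abs_le m) le_rfl (cs_mean hm)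
        (V := 1 / 2) (by norm_num) (by norm_num) (cs_sq hm).ge (A := 16) (by norm_num) (by norm_num) h0
        (by norm_num; linarith)
      obtain ⟨-, h2⟩ := rate_attained (cs_cont m) (cs_abs_le m) le_rfl (cs_mean hm)
        (V := 1 / 2) (by norm_num) (by norm_num) (cs_sq hm).ge (A := 16) (by norm_num) (by norm_num) hδ'0
        (by norm_num; linarith)
      have h3 := h2 θ
      have h4 : θ * (δ - δ') ≤ 16 * δ ^ k := by
        have h5 : δ - δ' = δ * η := by
          rw [hδ']
          ring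
        rw [h5]
        have h6 : θ * (δ * η) ≤ 16 * δ * (δ * η) := mul_le_mul_of_nonneg_right hθA (by positivity)
        have h7 : δ * (δ * η) ≤ η := by
          have : δ * δ ≤ 1 := by nlinarith
          nlinarith
        linarith
      rw [hθ]
      linarith
    -- the grid
    obtain ⟨M, hM⟩ : ∃ M : ℕ, 4 * Real.pi / η ≤ M := exists_nat_ge _
    have hMr : (0:ℝ) < M := lt_of_lt_of_le (by positivity) hM
    have hM1 : 1 ≤ M := by
      have : 0 < M := by exact_mod_cast hMr
      omega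
    have hMη : 2 * Real.pi / M ≤ η / 2 := by
      rw [div_le_iff₀ hη0] at hM
      rw [div_le_iff₀ hMr]
      linarith
    refine dimH_finset (Finset.range M) (fun j => {x | x ∈ Set.Ioo a b ∧ δ' ≤ limsup (fun N : ℕ =>
      (∑ n ∈ Finset.range N, cs m (x ^ (n + 1) + (fun n => s n + j / (M * m)) n)) / N) atTop}) _ _ ?_ ?_
    · rintro x ⟨hx, hls⟩
      have h1 := freq_of_limsup (δ' := δ * (1 - η / 2)) (hnb x) hls (by nlinarith [mul_pos h0 hη0])
      have h2 : ∃ᶠ N : ℕ in atTop, ∃ j ∈ Finset.range M, δ' ≤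
          (∑ n ∈ Finset.range N, cs m (x ^ (n + 1) + (fun n => s n + j / (M * m)) n)) / N := by
        refine (h1.and_eventually (eventually_ge_atTop 1)).mono ?_
        rintro N ⟨h3, h4⟩
        have hNr : (0:ℝ) < N := by
          have : 0 < N := by omega
          exact_mod_cast this
        rw [lt_div_iff₀ hNr] at h3
        obtain ⟨j, hj, hjz⟩ := exists_dir (∑ n ∈ Finset.range N, e (m * (x ^ (n + 1) + s n))) hM1
        refine ⟨j, hj, ?_⟩
        rw [le_div_iff₀ hNr]
        have h5 : (e (j / M) * ∑ n ∈ Finset.range N, e (m * (x ^ (n + 1) + s n))).re =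
            ∑ n ∈ Finset.range N, cs m (x ^ (n + 1) + (fun n => s n + j / (M * m)) n) := by
          rw [Finset.mul_sum, Complex.re_sum]
          refine Finset.sum_congr rfl fun n _ => ?_
          rw [cs_eq_re, ← e_add]
          congr 2
          field_simp
          ring
        rw [← h5]
        refine le_trans ?_ hjz
        have h6 : δ * (1 - η / 2) * N * (1 - 2 * Real.pi / M) ≤
            ‖∑ n ∈ Finset.range N, e (m * (x ^ (n + 1) + s n))‖ * (1 - 2 * Real.pi / M) :=
          mul_le_mul_of_nonneg_right h3.le (by linarith)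
        refine le_trans ?_ h6
        rw [hδ']
        have h7 : 1 - η ≤ (1 - η / 2) * (1 - 2 * Real.pi / M) := by
          have h8 : (1 - η / 2) * (1 - η / 2) ≤ (1 - η / 2) * (1 - 2 * Real.pi / M) :=
            mul_le_mul_of_nonneg_left (by linarith) (by linarith)
          nlinarith [sq_nonneg (η / 2)]
        have h9 : 0 ≤ δ * N := by positivity
        calc δ * (1 - η) * N = δ * N * (1 - η) := by ring
          _ ≤ δ * N * ((1 - η / 2) * (1 - 2 * Real.pi / M)) := mul_le_mul_of_nonneg_left h7 h9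
          _ = _ := by ring
      obtain ⟨j, hj, hf⟩ := freq_finset _ _ h2
      refine ⟨j, hj, hx, ?_⟩
      refine le_limsup_of_frequently_le hf ?_
      exact ⟨1, by
        rw [eventually_map]
        exact Eventually.of_forall fun N => (abs_le.1 (hfb _ x N)).2⟩
    · intro j _
      refine ((hall a b δ' haa hab' hbb hδ'0 (hδ'δ.trans d1) (fun n => s n + j / (M * m))).2).trans
        (ENNReal.ofReal_le_ofReal ?_)
      have h2 : (rateL (cs m) δ - (C₁ + 16) * δ ^ k) / Real.log b ≤
          (rateL (cs m) δ' - C₁ * δ' ^ k) / Real.log b := by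
        apply div_le_div_of_nonneg_right _ hlb.le
        have h3 : δ' ^ k ≤ δ ^ k := pow_le_pow_left₀ hδ'0.le hδ'δ k
        have h4 := mul_le_mul_of_nonneg_left h3 hC₁.le
        linarith
      linarith

end Pool.Agent.Helper59.GP
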