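import Pool.Agent.Helper18.GP.Poly
import Pool.Agent.Helper78.KD.Defs

/-!
# Project GP, block (d): trapezoidal functions are close to trigonometric polynomials
-/

set_option autoImplicit false

namespace Pool.Agent.Helper59.GP

open Finset Filter Topology
open Pool.Agent.Helper82.FK (e)
open Pool.Agent.Helper18.GP (gp nm)
open Pool.Agent.Helper78.KD (tz tr)

/-- the sawtooth, smoothed -/
noncomputable def us (η x : ℝ) : ℝ := tz η x - x

theorem us_nonneg {η : ℝ} (h0 : 0 < η) (h1 : η ≤ 1) (x : ℝ) : 0 ≤ us η x := by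
  unfold us tz
  have h2 := Int.floor_add_fract x
  have h3 := Int.fract_nonneg x
  have h4 := (Int.fract_lt_one x).le
  have h5 : Int.fract x ≤ min 1 (Int.fract x / η) := by
    apply le_min h4
    rw [le_div_iff₀ h0]
    nlinarith
  linarith

theorem us_le {η : ℝ} (x : ℝ) : us η x ≤ 1 := by
  unfold us tz
  have h2 := Int.floor_add_fract x
  have h3 := Int.fract_nonneg x
  have h5 := min_le_left 1 (Int.fract x / η)
  linarith

theorem tr_eq_us (η h y t : ℝ) : tr η h y t = us η (t + y + h) - us η (t + y) := by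
  unfold tr us
  ring

theorem tr_abs_le {η : ℝ} (h0 : 0 < η) (h1 : η ≤ 1) (h y t : ℝ) : |tr η h y t| ≤ 1 := by
  rw [tr_eq_us, abs_le]
  have h2 := us_nonneg h0 h1 (t + y + h)
  have h3 := us_nonneg h0 h1 (t + y)
  have h4 := us_le (η := η) (t + y + h)
  have h5 := us_le (η := η) (t + y)
  constructor <;> linarith

/-- the second Bernoulli function, periodised -/
noncomputable def B2 (x : ℝ) : ℝ := Int.fract x ^ 2 - Int.fract x + 1 / 6

theorem us_eq {η : ℝ} (h0 : 0 < η) (h1 : η < 1) (x : ℝ) :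
    us η x = 1 / 2 - η / 2 - 1 / (2 * η) * (B2 x - B2 (x - η)) := by
  have h2 := Int.floor_add_fract x
  have h3 := Int.fract_nonneg x
  have h4 := Int.fract_lt_one x
  have key : us η x = min 1 (Int.fract x / η) - Int.fract x := by
    unfold us tz
    linarith
  rw [key]
  unfold B2
  by_cases hx : η ≤ Int.fract x
  · have h5 : Int.fract (x - η) = Int.fract x - η := by
      rw [Int.fract_eq_iff]
      refine ⟨by linarith, by linarith, ⌊x⌋, ?_⟩
      linarith
    have h6 : 1 ≤ Int.fract x / η := by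
      rw [le_div_iff₀ h0]
      linarith
    rw [h5, min_eq_left h6]
    field_simp
    ring
  · push Not at hx
    have h5 : Int.fract (x - η) = Int.fract x - η + 1 := by
      rw [Int.fract_eq_iff]
      refine ⟨by linarith, by linarith, ⌊x⌋ - 1, ?_⟩
      push_cast
      linarith
    have h6 : Int.fract x / η ≤ 1 := by
      rw [div_le_iff₀ h0]
      linarith
    rw [h5, min_eq_right h6]
    field_simp
    ring

theorem e_add (x y : ℝ) : e (x + y) = e x * e y := by
  unfold e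
  rw [← Complex.exp_add]
  congr 1
  push_cast
  ring

theorem e_int (n : ℤ) : e n = 1 := by
  unfold e
  have : ((2 * Real.pi * (n : ℝ) : ℝ) : ℂ) * Complex.I = n * (2 * Real.pi * Complex.I) := by
    push_cast
    ring
  rw [this, Complex.exp_int_mul_two_pi_mul_I]

theorem e_norm (x : ℝ) : ‖e x‖ = 1 := Complex.norm_exp_ofReal_mul_I _

theorem e_conj (x : ℝ) : (starRingEnd ℂ) (e x) = e (-x) := by
  unfold e
  rw [← Complex.exp_conj]
  congr 1
  rw [map_mul, Complex.conj_ofReal, Complex.conj_I]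
  push_cast
  ring

theorem e_sub_one (x : ℝ) : ‖e x - 1‖ ≤ 2 * Real.pi * |x| := by
  have h := Real.norm_exp_I_mul_ofReal_sub_one_le (x := 2 * Real.pi * x)
  unfold e
  rw [mul_comm Complex.I] at h
  refine h.trans ?_
  rw [Real.norm_eq_abs, abs_mul, abs_of_pos (show 0 < 2 * Real.pi by have := Real.pi_pos; positivity)]

theorem B2_sum (x : ℝ) : HasSum (fun n : ℤ => 1 / (n : ℂ) ^ 2 * e (n * x)) ((2 * Real.pi ^ 2 * B2 x : ℝ) : ℂ) := by
  have h := hasSum_one_div_pow_mul_fourier_mul_bernoulliFun (k := 2) le_rfl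
    (x := Int.fract x) ⟨Int.fract_nonneg x, (Int.fract_lt_one x).le⟩
  have h1 : (fun n : ℤ => 1 / (n : ℂ) ^ 2 * e (n * x)) = (fun n : ℤ => 1 / (n : ℂ) ^ 2 *
      fourier n ((Int.fract x : ℝ) : UnitAddCircle)) := by
    funext n
    congr 1
    rw [fourier_coe_apply]
    have h2 : (n : ℝ) * x = ((n * ⌊x⌋ : ℤ) : ℝ) + n * Int.fract x := by
      have := Int.floor_add_fract x
      push_cast
      rw [← mul_add, this]
    rw [h2, e_add, e_int, one_mul]
    unfold e
    congr 1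
    push_cast
    ring
  have h3 : ((2 * Real.pi ^ 2 * B2 x : ℝ) : ℂ) = -(2 * Real.pi * Complex.I) ^ 2 / (Nat.factorial 2 : ℂ) *
      (bernoulliFun 2 (Int.fract x) : ℂ) := by
    rw [bernoulliFun_two]
    unfold B2
    rw [mul_pow, mul_pow, Complex.I_sq]
    simp only [Nat.factorial]
    push_cast
    ring
  rw [h1, h3]
  exact h

/-- the Fourier coefficients of the difference of trapezoidal lifts -/
noncomputable def ct (η h y : ℝ) (n : ℤ) : ℂ := -(1 / (4 * Real.pi ^ 2 * η)) * (1 / (n : ℂ) ^ 2) *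
  ((1 - e (-(n * η))) * (e (n * (y + h)) - e (n * y)))

theorem ct_sum {η : ℝ} (h0 : 0 < η) (h1 : η < 1) (h y t : ℝ) :
    HasSum (fun n : ℤ => ct η h y n * e (n * t)) (tr η h y t : ℂ) := by
  have a1 := B2_sum (t + y + h)
  have a2 := B2_sum (t + y + h - η)
  have a3 := B2_sum (t + y)
  have a4 := B2_sum (t + y - η)
  have hs := ((a1.sub a2).sub (a3.sub a4)).mul_left (-(1 / (4 * Real.pi ^ 2 * η)) : ℂ)
  have hpi : (Real.pi : ℂ) ≠ 0 := Complex.ofReal_ne_zero.mpr Real.pi_ne_zero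
  have hη : (η : ℂ) ≠ 0 := Complex.ofReal_ne_zero.mpr h0.ne'
  have k1 : (fun n : ℤ => ct η h y n * e (n * t)) = (fun n : ℤ => (-(1 / (4 * Real.pi ^ 2 * η)) : ℂ) *
      (1 / (n : ℂ) ^ 2 * e (n * (t + y + h)) - 1 / (n : ℂ) ^ 2 * e (n * (t + y + h - η)) -
        (1 / (n : ℂ) ^ 2 * e (n * (t + y)) - 1 / (n : ℂ) ^ 2 * e (n * (t + y - η))))) := by
    funext n
    unfold ct
    have b1 : e (n * (t + y + h)) = e (n * t) * e (n * (y + h)) := by
      rw [← e_add]
      congr 1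
      ring
    have b2 : e (n * (t + y + h - η)) = e (n * t) * e (n * (y + h)) * e (-(n * η)) := by
      rw [← e_add, ← e_add]
      congr 1
      ring
    have b3 : e (n * (t + y)) = e (n * t) * e (n * y) := by
      rw [← e_add]
      congr 1
      ring
    have b4 : e (n * (t + y - η)) = e (n * t) * e (n * y) * e (-(n * η)) := by
      rw [← e_add, ← e_add]
      congr 1
      ring
    rw [b1, b2, b3, b4]
    ring
  have k2 : (tr η h y t : ℂ) = (-(1 / (4 * Real.pi ^ 2 * η)) : ℂ) *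
      (((2 * Real.pi ^ 2 * B2 (t + y + h) : ℝ) : ℂ) - ((2 * Real.pi ^ 2 * B2 (t + y + h - η) : ℝ) : ℂ) -
        (((2 * Real.pi ^ 2 * B2 (t + y) : ℝ) : ℂ) - ((2 * Real.pi ^ 2 * B2 (t + y - η) : ℝ) : ℂ))) := by
    rw [tr_eq_us, us_eq h0 h1, us_eq h0 h1]
    push_cast
    field_simp
    ring
  rw [k1, k2]
  exact hs

theorem ct_zero (η h y : ℝ) : ct η h y 0 = 0 := by
  unfold ct
  simp

theorem ct_conj (η h y : ℝ) (n : ℤ) : (starRingEnd ℂ) (ct η h y n) = ct η h y (-n) := by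
  unfold ct
  simp only [map_mul, map_sub, map_neg, map_one, map_div₀, map_pow, e_conj, Complex.conj_ofReal,
    map_intCast, map_ofNat]
  have b1 : -(-((n : ℝ) * η)) = -(((-n : ℤ) : ℝ) * η) := by
    push_cast
    ring
  have b2 : -((n : ℝ) * (y + h)) = ((-n : ℤ) : ℝ) * (y + h) := by
    push_cast
    ring
  have b3 : -((n : ℝ) * y) = ((-n : ℤ) : ℝ) * y := by
    push_cast
    ring
  rw [b1, b2, b3]
  congr 2
  push_cast
  ring

theorem ct_norm {η : ℝ} (h0 : 0 < η) (h y : ℝ) (n : ℤ) : ‖ct η h y n‖ =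
    1 / (4 * Real.pi ^ 2 * η) * (1 / (n : ℝ) ^ 2) * (‖1 - e (-(n * η))‖ * ‖e (n * (y + h)) - e (n * y)‖) := by
  unfold ct
  rw [norm_mul, norm_mul, norm_mul]
  congr 2
  · rw [norm_neg, norm_div, norm_one, norm_mul, norm_mul, norm_pow, Complex.norm_real, Complex.norm_real,
      Real.norm_eq_abs, Real.norm_eq_abs, abs_of_pos Real.pi_pos, abs_of_pos h0]
    norm_num
  · rw [norm_div, norm_one, norm_pow, Complex.norm_intCast, sq_abs]

theorem ct_le1 {η : ℝ} (h0 : 0 < η) (h y : ℝ) (n : ℤ) : ‖ct η h y n‖ ≤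
    1 / (Real.pi ^ 2 * η) * (1 / (n : ℝ) ^ 2) := by
  rw [ct_norm h0]
  have hpi := Real.pi_pos
  have h1 : ‖1 - e (-(n * η))‖ ≤ 2 := by
    refine (norm_sub_le _ _).trans ?_
    rw [norm_one, e_norm]
    norm_num
  have h2 : ‖e (n * (y + h)) - e (n * y)‖ ≤ 2 := by
    refine (norm_sub_le _ _).trans ?_
    rw [e_norm, e_norm]
    norm_num
  have h3 : ‖1 - e (-(n * η))‖ * ‖e (n * (y + h)) - e (n * y)‖ ≤ 2 * 2 :=
    mul_le_mul h1 h2 (norm_nonneg _) (by norm_num)
  calc 1 / (4 * Real.pi ^ 2 * η) * (1 / (n : ℝ) ^ 2) * (‖1 - e (-(n * η))‖ * ‖e (n * (y + h)) - e (n * y)‖)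
      ≤ 1 / (4 * Real.pi ^ 2 * η) * (1 / (n : ℝ) ^ 2) * (2 * 2) :=
        mul_le_mul_of_nonneg_left h3 (by positivity)
    _ = 1 / (Real.pi ^ 2 * η) * (1 / (n : ℝ) ^ 2) := by
      field_simp
      norm_num

theorem ct_le2 {η : ℝ} (h0 : 0 < η) (h y : ℝ) (n : ℤ) (hn : n ≠ 0) : ‖ct η h y n‖ ≤
    1 / (Real.pi * |(n : ℝ)|) := by
  rw [ct_norm h0]
  have hpi := Real.pi_pos
  have hn' : 0 < |(n : ℝ)| := abs_pos.mpr (Int.cast_ne_zero.mpr hn)
  have h1 : ‖1 - e (-(n * η))‖ ≤ 2 * Real.pi * (|(n : ℝ)| * η) := by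
    rw [norm_sub_rev]
    refine (e_sub_one _).trans (le_of_eq ?_)
    rw [abs_neg, abs_mul, abs_of_pos h0]
  have h2 : ‖e (n * (y + h)) - e (n * y)‖ ≤ 2 := by
    refine (norm_sub_le _ _).trans ?_
    rw [e_norm, e_norm]
    norm_num
  have h3 : ‖1 - e (-(n * η))‖ * ‖e (n * (y + h)) - e (n * y)‖ ≤ 2 * Real.pi * (|(n : ℝ)| * η) * 2 :=
    mul_le_mul h1 h2 (norm_nonneg _) (by positivity)
  calc 1 / (4 * Real.pi ^ 2 * η) * (1 / (n : ℝ) ^ 2) * (‖1 - e (-(n * η))‖ * ‖e (n * (y + h)) - e (n * y)‖)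
      ≤ 1 / (4 * Real.pi ^ 2 * η) * (1 / (n : ℝ) ^ 2) * (2 * Real.pi * (|(n : ℝ)| * η) * 2) :=
        mul_le_mul_of_nonneg_left h3 (by positivity)
    _ = 1 / (Real.pi * |(n : ℝ)|) := by
      rw [← sq_abs (n : ℝ)]
      field_simp
      norm_num

theorem sum_sym {M : Type*} [AddCommMonoid M] (f : ℤ → M) (h0 : f 0 = 0) (H : ℕ) :
    ∑ n ∈ Finset.Icc (-(H : ℤ)) H, f n = ∑ n ∈ Finset.range (H + 1), (if n = 0 then 0 else (f n + f (-n))) := by
  induction H with
  | zero => simp [h0]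
  | succ H ih =>
    rw [Finset.sum_range_succ, ← ih]
    have h1 : Finset.Icc (-((H + 1 : ℕ) : ℤ)) ((H + 1 : ℕ) : ℤ) =
        insert (((H + 1 : ℕ) : ℤ)) (insert (-((H + 1 : ℕ) : ℤ)) (Finset.Icc (-(H : ℤ)) H)) := by
      ext x
      simp only [Finset.mem_Icc, Finset.mem_insert]
      push_cast
      omega
    rw [h1, Finset.sum_insert, Finset.sum_insert]
    · rw [if_neg (by omega)]
      rw [← add_assoc, add_comm]
    · simp only [Finset.mem_Icc]
      push_cast
      omega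
    · simp only [Finset.mem_Icc, Finset.mem_insert]
      push_cast
      omega

theorem tail_le {K : ℝ} (hK : 0 ≤ K) (g : ℕ → ℂ) (s : ℂ) (hg : HasSum g s)
    (hb : ∀ n : ℕ, 1 ≤ n → ‖g n‖ ≤ K / (n : ℝ) ^ 2) (H : ℕ) (hH : 1 ≤ H) :
    ‖s - ∑ n ∈ Finset.range (H + 1), g n‖ ≤ K / H := by
  have hH0 : (0 : ℝ) < H := by exact_mod_cast hH
  have key : ∀ M : ℕ, H + 1 ≤ M → ‖∑ n ∈ Finset.range M, g n - ∑ n ∈ Finset.range (H + 1), g n‖ ≤
      K * (1 / H - 1 / ((M : ℝ) - 1)) := by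
    intro M hM
    induction M, hM using Nat.le_induction with
    | base => simp
    | succ M hM ih =>
      have hM1 : (1 : ℝ) < M := by
        have : 1 < M := by omega
        exact_mod_cast this
      rw [Finset.sum_range_succ, add_sub_right_comm]
      refine (norm_add_le _ _).trans ?_
      have h1 := hb M (by omega)
      have h2 : K / (M : ℝ) ^ 2 ≤ K * (1 / ((M : ℝ) - 1) - 1 / (((M + 1 : ℕ) : ℝ) - 1)) := by
        rw [div_eq_mul_one_div]
        apply mul_le_mul_of_nonneg_left _ hK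
        push_cast
        rw [add_sub_cancel_right, div_sub_div _ _ (by linarith) (by linarith)]
        rw [div_le_div_iff₀ (by positivity) (mul_pos (by linarith) (by linarith))]
        nlinarith
      calc _ ≤ K * (1 / H - 1 / ((M : ℝ) - 1)) + K * (1 / ((M : ℝ) - 1) - 1 / (((M + 1 : ℕ) : ℝ) - 1)) :=
            add_le_add ih (h1.trans h2)
        _ = _ := by ring
  have hlim := (hg.tendsto_sum_nat.sub_const (∑ n ∈ Finset.range (H + 1), g n)).norm
  apply le_of_tendsto hlim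
  filter_upwards [eventually_ge_atTop (H + 1)] with M hM
  refine (key M hM).trans ?_
  have hM1 : (0 : ℝ) < (M : ℝ) - 1 := by
    have : 1 < M := by omega
    have : (1 : ℝ) < M := by exact_mod_cast this
    linarith
  have h5 : 0 < 1 / ((M : ℝ) - 1) := by positivity
  have h6 : K / H = K * (1 / H) := by ring
  rw [h6]
  exact mul_le_mul_of_nonneg_left (by linarith) hK

/-- **approximation of the trapezoids by trigonometric polynomials** -/
theorem tr_approx0 (η : ℝ) (h0 : 0 < η) (h1 : η ≤ 1 / 2) (h y : ℝ) :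
    ∃ (H : ℕ) (c : ℤ → ℂ) (p : ℝ → ℝ), (∀ t, gp H c t = p t) ∧ (H : ℝ) ≤ (1 / η) ^ 3 ∧
      nm H c ≤ 3 * (1 + Real.log (1 / η)) ∧ c 0 = 0 ∧ (∀ t, |p t| ≤ 3 / 2) ∧
      (∀ n, (starRingEnd ℂ) (c n) = c (-n)) ∧ ∀ t, |p t - tr η h y t| ≤ η := by
  have hpi := Real.pi_gt_three
  have hη1 : η < 1 := by linarith
  have hinv : 2 ≤ 1 / η := by
    rw [le_div_iff₀ h0]
    linarith
  set H : ℕ := ⌈(1 / η) ^ 2⌉₊ with hH
  have hHge : (1 / η) ^ 2 ≤ H := Nat.le_ceil _
  have hHle : (H : ℝ) ≤ (1 / η) ^ 3 := by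
    have h2 : (H : ℝ) < (1 / η) ^ 2 + 1 := Nat.ceil_lt_add_one (by positivity)
    nlinarith
  have hHpos : (0 : ℝ) < H := lt_of_lt_of_le (by positivity) hHge
  have hH1 : 1 ≤ H := by
    have : 0 < H := by exact_mod_cast hHpos
    omega
  -- the polynomial is real
  have hreal : ∀ t, (starRingEnd ℂ) (gp H (ct η h y) t) = gp H (ct η h y) t := by
    intro t
    unfold gp
    rw [map_sum]
    refine Finset.sum_equiv (Equiv.neg ℤ) ?_ ?_
    · intro i
      simp only [Finset.mem_Icc, Equiv.neg_apply]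
      omega
    · intro i _
      rw [map_mul, ct_conj, e_conj]
      simp only [Equiv.neg_apply]
      congr 2
      push_cast
      ring
  have heq : ∀ t, gp H (ct η h y) t = (((gp H (ct η h y) t).re : ℝ) : ℂ) := fun t =>
    (Complex.conj_eq_iff_re.mp (hreal t)).symm
  -- the error
  have herr : ∀ t, |(gp H (ct η h y) t).re - tr η h y t| ≤ η := by
    intro t
    have hs := (ct_sum h0 hη1 h y t).nat_add_neg
    have hz : ct η h y 0 * e (((0 : ℤ) : ℝ) * t) = 0 := by rw [ct_zero, zero_mul]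
    rw [hz, add_zero] at hs
    have hg0 : gp H (ct η h y) t = ∑ n ∈ Finset.range (H + 1), (ct η h y (n : ℤ) * e (((n : ℤ) : ℝ) * t) +
        ct η h y (-(n : ℤ)) * e (((-(n : ℤ) : ℤ) : ℝ) * t)) := by
      unfold gp
      rw [sum_sym (fun n : ℤ => ct η h y n * e ((n : ℝ) * t)) hz]
      refine Finset.sum_congr rfl fun n _ => ?_
      by_cases hn : n = 0
      · rw [if_pos hn]
        subst hn
        simp [ct_zero]
      · rw [if_neg hn]
    have hb : ∀ n : ℕ, 1 ≤ n → ‖ct η h y (n : ℤ) * e (((n : ℤ) : ℝ) * t) +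
        ct η h y (-(n : ℤ)) * e (((-(n : ℤ) : ℤ) : ℝ) * t)‖ ≤ 2 / (Real.pi ^ 2 * η) / (n : ℝ) ^ 2 := by
      intro n _
      refine (norm_add_le _ _).trans ?_
      rw [norm_mul, norm_mul, e_norm, e_norm, mul_one, mul_one]
      have k1 := ct_le1 h0 h y (n : ℤ)
      have k2 := ct_le1 h0 h y (-(n : ℤ))
      push_cast at k1 k2
      rw [neg_sq] at k2
      calc _ ≤ 1 / (Real.pi ^ 2 * η) * (1 / (n : ℝ) ^ 2) + 1 / (Real.pi ^ 2 * η) * (1 / (n : ℝ) ^ 2) :=
            add_le_add k1 k2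
        _ = _ := by ring
    have ht := tail_le (by positivity) _ _ hs hb H hH1
    rw [← hg0] at ht
    have h5 : |(gp H (ct η h y) t).re - tr η h y t| = ‖(tr η h y t : ℂ) - gp H (ct η h y) t‖ := by
      rw [heq t, ← Complex.ofReal_sub, Complex.norm_real, Real.norm_eq_abs, Complex.ofReal_re, abs_sub_comm]
    rw [h5]
    refine ht.trans ?_
    rw [div_le_iff₀ hHpos, div_le_iff₀ (by positivity)]
    have h6 : 1 ≤ η ^ 2 * H := by
      have := mul_le_mul_of_nonneg_left hHge (show 0 ≤ η ^ 2 by positivity)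
      have h7 : η ^ 2 * (1 / η) ^ 2 = 1 := by
        field_simp
      linarith
    calc (2 : ℝ) ≤ Real.pi ^ 2 * 1 := by nlinarith
      _ ≤ Real.pi ^ 2 * (η ^ 2 * H) := mul_le_mul_of_nonneg_left h6 (by positivity)
      _ = η * H * (Real.pi ^ 2 * η) := by ring
  refine ⟨H, ct η h y, fun t => (gp H (ct η h y) t).re, heq, hHle, ?_, ct_zero η h y, ?_,
    ct_conj η h y, herr⟩
  · -- sum of the coefficients
    have hz : ‖ct η h y 0‖ = 0 := by rw [ct_zero, norm_zero]
    have h1' : nm H (ct η h y) ≤ 2 / Real.pi * (1 + Real.log H) := by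
      unfold nm
      rw [sum_sym (fun n : ℤ => ‖ct η h y n‖) hz, Finset.sum_range_succ']
      simp only [if_true, add_zero]
      have h2 : ∀ n ∈ Finset.range H, (if n + 1 = 0 then 0 else (‖ct η h y ((n + 1 : ℕ) : ℤ)‖ +
          ‖ct η h y (-((n + 1 : ℕ) : ℤ))‖)) ≤ 2 / Real.pi * ((n + 1 : ℕ) : ℝ)⁻¹ := by
        intro n _
        rw [if_neg (by omega)]
        have hp : (0 : ℝ) < ((n + 1 : ℕ) : ℝ) := by positivity
        have k1 := ct_le2 h0 h y ((n + 1 : ℕ) : ℤ) (by omega)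
        have k2 := ct_le2 h0 h y (-((n + 1 : ℕ) : ℤ)) (by omega)
        rw [Int.cast_neg, abs_neg] at k2
        rw [Int.cast_natCast, abs_of_pos hp] at k1 k2
        calc _ ≤ 1 / (Real.pi * ((n + 1 : ℕ) : ℝ)) + 1 / (Real.pi * ((n + 1 : ℕ) : ℝ)) := add_le_add k1 k2
          _ = 2 / Real.pi * ((n + 1 : ℕ) : ℝ)⁻¹ := by
            field_simp
            norm_num
      refine (Finset.sum_le_sum h2).trans ?_
      rw [← Finset.mul_sum]
      apply mul_le_mul_of_nonneg_left _ (by positivity)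
      have h3 := harmonic_le_one_add_log H
      have h4 : ((harmonic H : ℚ) : ℝ) = ∑ n ∈ Finset.range H, ((n + 1 : ℕ) : ℝ)⁻¹ := by
        unfold harmonic
        push_cast
        rfl
      rw [h4] at h3
      exact h3
    have h2' : Real.log H ≤ 3 * Real.log (1 / η) := by
      have h3 := Real.log_le_log hHpos hHle
      rw [Real.log_pow] at h3
      exact_mod_cast h3
    have h3' : 0 ≤ Real.log (1 / η) := Real.log_nonneg (by linarith)
    have h4' : 2 / Real.pi ≤ 1 := by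
      rw [div_le_one (by linarith)]
      linarith
    have h5' : 0 ≤ 1 + Real.log H := by
      have := Real.log_nonneg (show (1 : ℝ) ≤ H by exact_mod_cast hH1)
      linarith
    calc nm H (ct η h y) ≤ 2 / Real.pi * (1 + Real.log H) := h1'
      _ ≤ 1 * (1 + Real.log H) := mul_le_mul_of_nonneg_right h4' h5'
      _ ≤ 3 * (1 + Real.log (1 / η)) := by
        linarith
  · intro t
    have h2 := herr t
    have h3 := tr_abs_le h0 hη1.le h y t
    have h4 := abs_sub_abs_le_abs_sub ((gp H (ct η h y) t).re) (tr η h y t)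
    linarith

end Pool.Agent.Helper59.GP
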